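import Pool.Agent.H19.LX.Cls

/-!
# Module Alp (about 110 lines): the trivial count

Proofs. `card_q`: for `q < q'` in `S` one has `nd ((q'-q) α) ≤ 2 ρ`
(`nd (x - y) ≤ nd x + nd y`), so `c ≤ (q'-q) 2 ρ`: the elements of `S` are in `[1,X]` and `c/(2ρ)`
apart, so `card S - 1 ≤ X 2ρ/c`.
`triv`: `X = 2^(n+1)`, `ρ = rho M n k`. There are at most `1 + 2 ρ X/c ≤ 3 ρ X/c` values of `q`
(`nd_le`, `c_le`; if `S` is empty nothing is to be shown), for each `q` the `r` satisfy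
`|r - q x₀| ≤ 5 q/2^b ≤ 5 X/2^b`, so there are at most `10 X/2^b + 1 ≤ 20 X/2^b` of them; the product
is `60 ρ X²/(c 2^b) = 240/c 2^M/2^k/2^b`.
-/

set_option autoImplicit false

namespace Pool.Agent.H19.LX

open Pool.Agent.H19.LW

theorem nd_sub_le (x y : ℝ) : nd (x - y) ≤ nd x + nd y := by
  refine (nd_le_abs (x - y) (round x - round y)).trans ?_
  have h : x - y - ((round x - round y : ℤ) : ℝ) = (x - round x) - (y - round y) := by
    push_cast
    ring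
  rw [h]
  exact abs_sub _ _

theorem card_q (P : Par) (X ρ : ℝ) (hρ : 0 < ρ) (hX : 0 ≤ X) (S : Finset ℕ)
    (h : ∀ q ∈ S, 1 ≤ q ∧ (q : ℝ) ≤ X ∧ nd (q * P.α) ≤ ρ) :
    (S.card : ℝ) ≤ 1 + 2 * ρ * X / P.c := by
  have hc := P.c0
  have hg : 0 < P.c / (2 * ρ) := by positivity
  have gap : ∀ q ∈ S, ∀ r ∈ S, q < r → P.c / (2 * ρ) ≤ (r : ℝ) - q := by
    intro q hq r hr hqr
    have h1 : 1 ≤ r - q := by omega
    have h2 := P.bad (r - q) h1
    have h3 : ((r - q : ℕ) : ℝ) = (r : ℝ) - q := by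
      rw [Nat.cast_sub hqr.le]
    have h4 : ((r : ℝ) - q) * P.α = r * P.α - q * P.α := by ring
    rw [h3, h4] at h2
    have h5 := nd_sub_le (r * P.α) (q * P.α)
    have h6 := (h q hq).2.2
    have h7 := (h r hr).2.2
    have h8 : (0 : ℝ) < (r : ℝ) - q := by
      have : (q : ℝ) < r := by exact_mod_cast hqr
      linarith
    rw [div_le_iff₀ (by positivity)]
    nlinarith
  have hinj : Set.InjOn (fun q : ℕ => ⌊(q : ℝ) / (P.c / (2 * ρ))⌋₊) (S : Set ℕ) := by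
    have key : ∀ q ∈ S, ∀ r ∈ S, q < r →
        ⌊(q : ℝ) / (P.c / (2 * ρ))⌋₊ < ⌊(r : ℝ) / (P.c / (2 * ρ))⌋₊ := by
      intro q hq r hr hqr
      have h1 := gap q hq r hr hqr
      have h2 : (q : ℝ) / (P.c / (2 * ρ)) + 1 ≤ (r : ℝ) / (P.c / (2 * ρ)) := by
        rw [div_add_one hg.ne']
        exact (div_le_div_iff_of_pos_right hg).mpr (by linarith)
      have h3 : ⌊(q : ℝ) / (P.c / (2 * ρ)) + 1⌋₊ = ⌊(q : ℝ) / (P.c / (2 * ρ))⌋₊ + 1 :=
        Nat.floor_add_one (by positivity)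
      have h4 := Nat.floor_le_floor h2
      omega
    intro q hq r hr hqr
    by_contra hne
    rcases lt_or_gt_of_ne hne with h1 | h1
    · exact absurd hqr (key q hq r hr h1).ne
    · exact absurd hqr (key r hr q hq h1).ne'
  have hcard : S.card ≤ (Finset.range (⌊X / (P.c / (2 * ρ))⌋₊ + 1)).card := by
    refine Finset.card_le_card_of_injOn (fun q : ℕ => ⌊(q : ℝ) / (P.c / (2 * ρ))⌋₊) ?_ hinj
    intro q hq
    have h1 := (h q hq).2.1
    have h2 : ⌊(q : ℝ) / (P.c / (2 * ρ))⌋₊ ≤ ⌊X / (P.c / (2 * ρ))⌋₊ :=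
      Nat.floor_le_floor ((div_le_div_iff_of_pos_right hg).mpr h1)
    simp only [Finset.coe_range, Set.mem_Iio]
    omega
  rw [Finset.card_range] at hcard
  have h1 : (S.card : ℝ) ≤ (⌊X / (P.c / (2 * ρ))⌋₊ : ℝ) + 1 := by exact_mod_cast hcard
  have h2 := Nat.floor_le (show 0 ≤ X / (P.c / (2 * ρ)) by positivity)
  have h3 : X / (P.c / (2 * ρ)) = 2 * ρ * X / P.c := by
    field_simp
  linarith

theorem Alp_card_int (y h : ℝ) (S : Finset ℤ) (hS : ∀ r ∈ S, |(r : ℝ) - y| ≤ h) :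
    (S.card : ℝ) ≤ 2 * |h| + 1 := by
  have h1 : S ⊆ Finset.Icc ⌈y - h⌉ ⌊y + h⌋ := by
    intro r hr
    have h2 := abs_le.mp (hS r hr)
    rw [Finset.mem_Icc]
    exact ⟨Int.ceil_le.mpr (by linarith), Int.le_floor.mpr (by linarith)⟩
  have h2 := Finset.card_le_card h1
  rw [Int.card_Icc] at h2
  have h3 := Int.floor_le (y + h)
  have h4 := Int.le_ceil (y - h)
  have h5 : ((⌊y + h⌋ + 1 - ⌈y - h⌉).toNat : ℝ) ≤ 2 * |h| + 1 := by
    rcases le_total 0 (⌊y + h⌋ + 1 - ⌈y - h⌉) with h6 | h6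
    · have h7 : (((⌊y + h⌋ + 1 - ⌈y - h⌉).toNat : ℤ) : ℝ) = ((⌊y + h⌋ + 1 - ⌈y - h⌉ : ℤ) : ℝ) := by
        rw [Int.toNat_of_nonneg h6]
      rw [Int.cast_natCast] at h7
      rw [h7]
      push_cast
      have h8 := le_abs_self h
      linarith
    · rw [Int.toNat_of_nonpos h6]
      have := abs_nonneg h
      push_cast
      linarith
  have h6 : (S.card : ℝ) ≤ ((⌊y + h⌋ + 1 - ⌈y - h⌉).toNat : ℝ) := by exact_mod_cast h2
  linarith

theorem triv (P : Par) {M n k b : ℕ} (x₀ : ℝ) (S : Finset (ℕ × ℤ))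
    (hS : ∀ x ∈ S, P.Cls M n k x.1 ∧ |(x.2 : ℝ) / x.1 - x₀| ≤ 5 / 2 ^ b)
    (hX : (1 : ℝ) / 10 ≤ 2 ^ (n + 1) / 2 ^ b) :
    (S.card : ℝ) ≤ 240 / P.c * (2 ^ M / 2 ^ k / 2 ^ b) := by
  classical
  have hc := P.c0
  rcases S.eq_empty_or_nonempty with h0 | ⟨x, hx⟩
  · rw [h0, Finset.card_empty]
    push_cast
    positivity
  have hρ : 0 < Par.rho M n k := by
    unfold Par.rho
    positivity
  have hcl : P.c ≤ 2 ^ (n + 1) * Par.rho M n k := Par.Cls.c_le (hS x hx).1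
  have h1 : ((S.image Prod.fst).card : ℝ) ≤ 1 + 2 * Par.rho M n k * 2 ^ (n + 1) / P.c := by
    refine card_q P (2 ^ (n + 1)) (Par.rho M n k) hρ (by positivity) _ ?_
    intro q hq
    obtain ⟨y, hy, rfl⟩ := Finset.mem_image.mp hq
    have h2 := (hS y hy).1
    refine ⟨Par.Cls.q1 h2, ?_, Par.Cls.nd_le h2⟩
    exact_mod_cast h2.hi.le
  have h2 : ((S.image Prod.fst).card : ℝ) ≤ 3 * Par.rho M n k * 2 ^ (n + 1) / P.c := by
    have h3 : (1 : ℝ) ≤ 2 ^ (n + 1) * Par.rho M n k / P.c := by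
      rw [le_div_iff₀ hc]
      linarith
    have h4 : 3 * Par.rho M n k * 2 ^ (n + 1) / P.c =
        2 ^ (n + 1) * Par.rho M n k / P.c + 2 * Par.rho M n k * 2 ^ (n + 1) / P.c := by ring
    linarith
  have h3 : ∀ q ∈ S.image Prod.fst,
      (S.filter fun y => y.1 = q).card ≤ ⌊20 * (2 : ℝ) ^ (n + 1) / 2 ^ b⌋₊ := by
    intro q hq
    have hq1 : (0 : ℝ) < q := by
      obtain ⟨y, hy, rfl⟩ := Finset.mem_image.mp hq
      exact_mod_cast Par.Cls.q1 (hS y hy).1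
    have hq2 : (q : ℝ) ≤ 2 ^ (n + 1) := by
      obtain ⟨y, hy, rfl⟩ := Finset.mem_image.mp hq
      exact_mod_cast (hS y hy).1.hi.le
    have h4 : (S.filter fun y => y.1 = q).card =
        ((S.filter fun y => y.1 = q).image Prod.snd).card := by
      rw [Finset.card_image_of_injOn]
      intro y hy z hz hyz
      have e1 := (Finset.mem_filter.mp hy).2
      have e2 := (Finset.mem_filter.mp hz).2
      exact Prod.ext (e1.trans e2.symm) hyz
    rw [h4]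
    apply Nat.le_floor
    have h5 := Alp_card_int (q * x₀) (5 * 2 ^ (n + 1) / 2 ^ b)
      ((S.filter fun y => y.1 = q).image Prod.snd) (by
        intro r hr
        obtain ⟨y, hy, rfl⟩ := Finset.mem_image.mp hr
        obtain ⟨hy1, hy2⟩ := Finset.mem_filter.mp hy
        have h6 := (hS y hy1).2
        rw [hy2] at h6
        have h7 : (y.2 : ℝ) - q * x₀ = q * ((y.2 : ℝ) / q - x₀) := by
          field_simp
        rw [h7, abs_mul, abs_of_pos hq1]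
        calc (q : ℝ) * |(y.2 : ℝ) / q - x₀| ≤ 2 ^ (n + 1) * (5 / 2 ^ b) :=
              mul_le_mul hq2 h6 (abs_nonneg _) (by positivity)
          _ = 5 * 2 ^ (n + 1) / 2 ^ b := by ring)
    rw [abs_of_pos (by positivity)] at h5
    have h6 : 20 * (2 : ℝ) ^ (n + 1) / 2 ^ b =
        2 * (5 * 2 ^ (n + 1) / 2 ^ b) + 10 * (2 ^ (n + 1) / 2 ^ b) := by ring
    rw [h6]
    linarith
  have h4 := Finset.card_le_mul_card_image S _ h3
  have h5 : (S.card : ℝ) ≤ (⌊20 * (2 : ℝ) ^ (n + 1) / 2 ^ b⌋₊ : ℝ) *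
      ((S.image Prod.fst).card : ℝ) := by exact_mod_cast h4
  have h6 := Nat.floor_le (show 0 ≤ 20 * (2 : ℝ) ^ (n + 1) / 2 ^ b by positivity)
  refine h5.trans ((mul_le_mul h6 h2 (by positivity) (by positivity)).trans (le_of_eq ?_))
  unfold Par.rho
  have h7 : (4 : ℝ) ^ n = 2 ^ n * 2 ^ n := by
    rw [← mul_pow]
    norm_num
  rw [h7]
  field_simp
  ring

end Pool.Agent.H19.LX
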