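import Pool.Agent.H19.LX.Def

/-!
# Module Cls (about 130 lines): estimates in a class

Write `ρ = rho M n k = 2^M / 2^k / 4^n`, `n = Nat.log 2 q`, `a = ca q`, `l = lev q`. Proofs (compare
`Pool/Agent/H19/LW/Cls.lean`).
`nd_pos`: `0 < c ≤ q nd(q α)`. `ca_le`, `lt_ca`: `Int.zpow_log_le_self`, `Int.lt_zpow_succ_log_self`.
`stg_eq`: `c ≤ q nd(q α) < 2^(n+1) 2^(a+1)` and `c ≥ 2^(1-κ)`, so `n + a + 2 > 1 - κ`,
`2 n + a + l + 3 ≥ n + a + κ + 3 ≥ 1`, `toNat` does nothing. `stg_pos` in the same way.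
`lam_le`: `lam q = q² nd(q α) < 2^(2n+2) 2^(a+1) = 2^(2n+a+3) = del q 2^(stg q)`.
`le_lam`: `lam q ≥ 2^(2n+a) = del q 2^(stg q)/8`.
`κ_le`: `κl`. `log_eq`: `Nat.log 2 q = n`. `ca_eq`: `stg_eq` with `lev q = k`.
`nd_le`: `nd(q α) < 2^(a+1) = 2^(M-k-2-2n) = ρ/4`. `c_le`: `c ≤ q nd(q α) ≤ 2^(n+1) ρ`.
-/

set_option autoImplicit false

namespace Pool.Agent.H19.LX

open Real
open Pool.Agent.H19.LW (nd)

theorem nd_nonneg (x : ℝ) : 0 ≤ nd x := abs_nonneg _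

theorem nd_le_half (x : ℝ) : nd x ≤ 1 / 2 := abs_sub_round x

theorem nd_le_abs (x : ℝ) (r : ℤ) : nd x ≤ |x - r| := round_le x r

namespace Par

variable (P : Par)

theorem nd_pos {q : ℕ} (hq : 1 ≤ q) : 0 < nd (q * P.α) := by
  have h1 := P.bad q hq
  have h2 := P.c0
  have h3 : (0 : ℝ) < q := by exact_mod_cast hq
  by_contra h
  have h4 : (q : ℝ) * nd (q * P.α) ≤ 0 := mul_nonpos_of_nonneg_of_nonpos h3.le (not_lt.1 h)
  linarith

theorem PP_pos {q : ℕ} (hq : 1 ≤ q) : 0 < P.PP q :=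
  mul_pos (by exact_mod_cast hq) (P.nd_pos hq)

theorem lam_pos {q : ℕ} (hq : 1 ≤ q) : 0 < P.lam q :=
  mul_pos (by exact_mod_cast hq) (P.PP_pos hq)

theorem del_pos (q : ℕ) : 0 < P.del q := by
  unfold del
  positivity

theorem ca_le {q : ℕ} (hq : 1 ≤ q) : (2 : ℝ) ^ P.ca q ≤ nd (q * P.α) := by
  have h := Int.zpow_log_le_self (b := 2) (by norm_num) (P.nd_pos hq)
  exact_mod_cast h

theorem lt_ca {q : ℕ} (hq : 1 ≤ q) : nd (q * P.α) < (2 : ℝ) ^ (P.ca q + 1) := by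
  have h := Int.lt_zpow_succ_log_self (b := 2) (by norm_num) (nd (q * P.α))
  exact_mod_cast h

private theorem cls_lam (P : Par) (q : ℕ) : P.lam q = (q : ℝ) * (q * nd (q * P.α)) := rfl

/-- the cell of `q` is not far below the diagonal -/
private theorem cls_low {q : ℕ} (hq : 1 ≤ q) : 0 ≤ (Nat.log 2 q : ℤ) + P.ca q + P.κ := by
  have h1 := (P.lt_ca hq).le
  have h2 : (q : ℝ) < 2 ^ ((Nat.log 2 q : ℤ) + 1) := by
    have h3 : q < 2 ^ (Nat.log 2 q + 1) := Nat.lt_pow_succ_log_self (by norm_num) q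
    have h4 : (q : ℝ) < 2 ^ (Nat.log 2 q + 1) := by exact_mod_cast h3
    rw [← Nat.cast_succ, zpow_natCast]
    exact h4
  have h5 := P.bad q hq
  have h6 := P.κc
  have h7 : (q : ℝ) * nd (q * P.α) < 2 ^ ((Nat.log 2 q : ℤ) + 1) * 2 ^ (P.ca q + 1) :=
    mul_lt_mul h2 h1 (P.nd_pos hq) (by positivity)
  have h8 : (2 : ℝ) ^ (1 : ℤ) < 2 ^ ((Nat.log 2 q : ℤ) + 1 + (P.ca q + 1) + P.κ) := by
    rw [zpow_add₀ two_ne_zero, zpow_add₀ two_ne_zero _ (P.ca q + 1), zpow_natCast, zpow_one]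
    have h9 : (0 : ℝ) < 2 ^ P.κ := by positivity
    calc (2 : ℝ) ≤ P.c * 2 ^ P.κ := h6
      _ ≤ q * nd (q * P.α) * 2 ^ P.κ := mul_le_mul_of_nonneg_right h5 h9.le
      _ < _ := mul_lt_mul_of_pos_right h7 h9
  have h10 := (zpow_lt_zpow_iff_right₀ (one_lt_two (α := ℝ))).1 h8
  omega

theorem stg_eq {q : ℕ} (hq : 1 ≤ q) :
    (P.stg q : ℤ) = 2 * (Nat.log 2 q : ℤ) + P.ca q + P.lev q + 3 := by
  have h := P.cls_low hq
  have hl : (P.κ : ℤ) ≤ P.lev q := by exact_mod_cast P.κl _ _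
  unfold stg
  have h2 : (0 : ℤ) ≤ (Nat.log 2 q : ℤ) := Int.natCast_nonneg _
  rw [Int.toNat_of_nonneg (by linarith)]

theorem stg_pos {q : ℕ} (hq : 1 ≤ q) : 1 ≤ P.stg q := by
  have h := P.cls_low hq
  have hl : (P.κ : ℤ) ≤ P.lev q := by exact_mod_cast P.κl _ _
  have h3 := P.stg_eq hq
  have h2 : (0 : ℤ) ≤ (Nat.log 2 q : ℤ) := Int.natCast_nonneg _
  omega

private theorem cls_delstg {q : ℕ} (hq : 1 ≤ q) :
    P.del q * 2 ^ P.stg q = (2 : ℝ) ^ (2 * (Nat.log 2 q : ℤ) + P.ca q + 3) := by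
  have h := P.stg_eq hq
  have h1 : (2 : ℝ) ^ P.stg q = 2 ^ (2 * (Nat.log 2 q : ℤ) + P.ca q + 3) * 2 ^ P.lev q := by
    rw [← zpow_natCast 2 (P.stg q), h, ← zpow_natCast 2 (P.lev q), ← zpow_add₀ two_ne_zero]
    congr 1
    ring
  rw [h1]
  unfold del
  field_simp

theorem lam_le {q : ℕ} (hq : 1 ≤ q) : P.lam q ≤ P.del q * 2 ^ P.stg q := by
  have h1 := (P.lt_ca hq).le
  have h2 : (q : ℝ) ≤ 2 ^ ((Nat.log 2 q : ℤ) + 1) := by
    have h3 : q < 2 ^ (Nat.log 2 q + 1) := Nat.lt_pow_succ_log_self (by norm_num) q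
    have h4 : (q : ℝ) < 2 ^ (Nat.log 2 q + 1) := by exact_mod_cast h3
    rw [← Nat.cast_succ, zpow_natCast]
    exact h4.le
  rw [P.cls_delstg hq, cls_lam]
  have h0 : (0 : ℝ) ≤ q := Nat.cast_nonneg q
  calc (q : ℝ) * (q * nd (q * P.α)) ≤ 2 ^ ((Nat.log 2 q : ℤ) + 1) *
        (2 ^ ((Nat.log 2 q : ℤ) + 1) * 2 ^ (P.ca q + 1)) := by
        have hn := nd_nonneg ((q : ℝ) * P.α)
        exact mul_le_mul h2 (mul_le_mul h2 h1 hn (by positivity)) (mul_nonneg h0 hn)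
          (by positivity)
    _ = 2 ^ (2 * (Nat.log 2 q : ℤ) + P.ca q + 3) := by
        rw [← zpow_add₀ two_ne_zero, ← zpow_add₀ two_ne_zero]
        congr 1
        ring

theorem le_lam {q : ℕ} (hq : 1 ≤ q) : P.del q * 2 ^ P.stg q / 8 ≤ P.lam q := by
  have h1 := P.ca_le hq
  have h2 : (2 : ℝ) ^ (Nat.log 2 q : ℤ) ≤ q := by
    rw [zpow_natCast]
    exact_mod_cast Nat.pow_log_le_self 2 (show q ≠ 0 by omega)
  rw [P.cls_delstg hq, cls_lam]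
  have h0 : (0 : ℝ) ≤ q := Nat.cast_nonneg q
  have h3 : (2 : ℝ) ^ (2 * (Nat.log 2 q : ℤ) + P.ca q + 3) / 8 =
      2 ^ (Nat.log 2 q : ℤ) * (2 ^ (Nat.log 2 q : ℤ) * 2 ^ P.ca q) := by
    rw [zpow_add₀ two_ne_zero, zpow_add₀ two_ne_zero, two_mul, zpow_add₀ two_ne_zero]
    norm_num
    ring
  rw [h3]
  gcongr

variable {P} {M n k q : ℕ}

theorem Cls.q1 (h : P.Cls M n k q) : 1 ≤ q := le_trans Nat.one_le_two_pow h.lo

theorem Cls.κ_le (h : P.Cls M n k q) : P.κ ≤ k := by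
  rw [← h.lev]
  exact P.κl _ _

theorem Cls.log_eq (h : P.Cls M n k q) : Nat.log 2 q = n := by
  exact Nat.log_eq_of_pow_le_of_lt_pow h.lo h.hi

theorem Cls.ca_eq (h : P.Cls M n k q) : P.ca q = (M : ℤ) - k - 3 - 2 * n := by
  have h1 := P.stg_eq h.q1
  rw [h.stg, h.log_eq, h.lev] at h1
  linarith

theorem Cls.l_eq (h : P.Cls M n k q) : P.l n ((M : ℤ) - k - 3 - 2 * n) = k := by
  have h1 : P.l (Nat.log 2 q) (P.ca q) = k := h.lev
  rw [h.log_eq, h.ca_eq] at h1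
  exact h1

theorem Cls.nd_le (h : P.Cls M n k q) : nd (q * P.α) ≤ rho M n k := by
  have h1 := (P.lt_ca h.q1).le
  rw [h.ca_eq] at h1
  refine h1.trans ?_
  have h2 : rho M n k = (2 : ℝ) ^ ((M : ℤ) - k - 2 * n) := by
    unfold rho
    rw [zpow_sub₀ two_ne_zero, zpow_sub₀ two_ne_zero, zpow_natCast, zpow_natCast, zpow_mul,
      zpow_natCast]
    norm_num
  rw [h2]
  exact zpow_le_zpow_right₀ one_le_two (by omega)

theorem Cls.c_le (h : P.Cls M n k q) : P.c ≤ 2 ^ (n + 1) * rho M n k := by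
  refine (P.bad q h.q1).trans (mul_le_mul ?_ h.nd_le (nd_nonneg _) (by positivity))
  exact_mod_cast h.hi.le

/-- every `q ≥ 1` of stage `M` lies in a class -/
theorem exists_cls (P : Par) {q : ℕ} (hq : 1 ≤ q) : ∃ n k, P.Cls (P.stg q) n k q :=
  ⟨Nat.log 2 q, P.lev q, rfl, Nat.pow_log_le_self 2 (by omega),
    Nat.lt_pow_succ_log_self (by norm_num) q, rfl⟩

end Par

end Pool.Agent.H19.LX
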