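import Pool.Agent.H19.LX.Est
import Pool.Agent.H19.LW.Dim

/-!
# Module Rk2 (about 170 lines): the count of a class in rank at most two

Proof. Put `X = 2^(n+1)`, `ρ = rho M n k`, `Y = min ρ (1/2)`, `Z = 6 X/2^b < 3/5`,
`V = 2^M/2^k/2^b ≥ 1`, `N = card S`. The map `x ↦ vec P x = (x.1, round (x.1 α), x.2)` is injective,
so `card T = N`, and `T` lies in `Box α β X Y Z`: `q < X`, `|q α - round (q α)| = nd(q α) ≤ Y`
(`Cls.nd_le`, `nd_le_half`), `|q β - r| ≤ q (|β - x₀| + |x₀ - r/q|) ≤ X 6/2^b`. Suppose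
`N > 2^54 V`, so `N > 2^54`, `8/√N ≤ 2^(-24)`. `dich` and `small` give an integer `v ≠ 0` in the box
shrunk by `8/√N`; replacing `v` by `-v` let `v 0 ≥ 0`. If `v 0 = 0` then `|v 1| ≤ Y 8/√N < 1` and
`|v 2| ≤ Z 8/√N < 1`, so `v = 0`, a contradiction. So `q₀ = v 0 ≥ 1`, `nd(q₀ α) ≤ ρ 8/√N`,
`nd(q₀ β) ≤ Z 8/√N`. With `u = log₂ (X/q₀)`, `v' = log₂ (ρ/nd(q₀ α))`, both `≥ log₂ (√N/8) ≥ 24`, and
`w = u + v' ≥ 48`, `2^w ≥ N/64`. `Cls.stg_lt` applies, so `stg q₀ < M` and by `surv`, `Cls.del_ge`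
`1/(2^(k+4) 2^(w/8)) ≤ del q₀/4 ≤ nd(q₀ β) PP q₀ ≤ (8/√N) Z X ρ 2^(-w)`, and `X ρ Z = 24 V`. With
`s = √N/8`, `t = 2^(w/8)`: `t^7 s ≤ 384 2^k V`, `s² ≤ t^8`, `2^(4k) ≤ V`, so
`(s²)^11 ≤ 384^8 V^10`, which contradicts `N > 2^54 V`.
-/

set_option autoImplicit false

namespace Pool.Agent.H19.LX

open Pool.Agent.H19.LW

/-- the integer vector `(q, p, r)` of a pair `(q, r)`, `p` the integer nearest to `q α` -/
noncomputable def vec (P : Par) (x : ℕ × ℤ) : Fin 3 → ℤ := ![(x.1 : ℤ), round (x.1 * P.α), x.2]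

theorem vec_inj (P : Par) : Function.Injective (vec P) := by
  intro x y h
  have h0 : (x.1 : ℤ) = (y.1 : ℤ) := congrFun h 0
  have h2 : x.2 = y.2 := congrFun h 2
  exact Prod.ext (by exact_mod_cast h0) h2

theorem vec_box (P : Par) {M n k b : ℕ} {β x₀ : ℝ} (hβ : |β - x₀| ≤ 1 / 2 ^ b) {x : ℕ × ℤ}
    (h : P.Cls M n k x.1) (hx : |(x.2 : ℝ) / x.1 - x₀| ≤ 5 / 2 ^ b) :
    Box P.α β (2 ^ (n + 1)) (min (Par.rho M n k) (1 / 2)) (6 * 2 ^ (n + 1) / 2 ^ b)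
      (vec P x) := by
  have hq1 : 1 ≤ x.1 := h.q1
  have hq0 : (0 : ℝ) < x.1 := by exact_mod_cast hq1
  have hqX : (x.1 : ℝ) ≤ 2 ^ (n + 1) := by exact_mod_cast h.hi.le
  have hb : (0 : ℝ) < 2 ^ b := by positivity
  refine ⟨?_, ?_, ?_⟩
  · show |(((x.1 : ℕ) : ℤ) : ℝ)| ≤ 2 ^ (n + 1)
    rw [Int.cast_natCast, abs_of_pos hq0]
    exact hqX
  · show |(((x.1 : ℕ) : ℤ) : ℝ) * P.α - ((round (x.1 * P.α) : ℤ) : ℝ)| ≤ _
    rw [Int.cast_natCast]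
    exact le_min h.nd_le (nd_le_half _)
  · show |(((x.1 : ℕ) : ℤ) : ℝ) * β - ((x.2 : ℤ) : ℝ)| ≤ _
    rw [Int.cast_natCast]
    have e1 : (x.1 : ℝ) * β - x.2 = x.1 * ((β - x₀) - ((x.2 : ℝ) / x.1 - x₀)) := by
      field_simp
      ring
    rw [e1, abs_mul, abs_of_pos hq0]
    have e2 : |(β - x₀) - ((x.2 : ℝ) / x.1 - x₀)| ≤ 6 / 2 ^ b := by
      refine (abs_sub _ _).trans ?_
      calc |β - x₀| + |(x.2 : ℝ) / x.1 - x₀| ≤ 1 / 2 ^ b + 5 / 2 ^ b := add_le_add hβ hx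
        _ = 6 / 2 ^ b := by ring
    calc (x.1 : ℝ) * |(β - x₀) - ((x.2 : ℝ) / x.1 - x₀)| ≤ 2 ^ (n + 1) * (6 / 2 ^ b) :=
          mul_le_mul hqX e2 (abs_nonneg _) (by positivity)
      _ = 6 * 2 ^ (n + 1) / 2 ^ b := by ring

private lemma rk2_neg {α β X Y Z : ℝ} {v : Fin 3 → ℤ} (h : Box α β X Y Z v) :
    Box α β X Y Z (-v) := by
  obtain ⟨h0, h1, h2⟩ := h
  refine ⟨?_, ?_, ?_⟩
  · rw [Pi.neg_apply, Int.cast_neg, abs_neg]
    exact h0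
  · rw [Pi.neg_apply, Pi.neg_apply, Int.cast_neg, Int.cast_neg,
      show -(v 0 : ℝ) * α - -(v 1 : ℝ) = -((v 0 : ℝ) * α - v 1) by ring, abs_neg]
    exact h1
  · rw [Pi.neg_apply, Pi.neg_apply, Int.cast_neg, Int.cast_neg,
      show -(v 0 : ℝ) * β - -(v 2 : ℝ) = -((v 0 : ℝ) * β - v 2) by ring, abs_neg]
    exact h2

private lemma rk2_int_zero {z : ℤ} (h : |(z : ℝ)| < 1) : z = 0 := by
  have h1 : |z| < 1 := by exact_mod_cast h
  exact Int.abs_lt_one_iff.1 h1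

/-- the final inequality -/
private lemma rk2_num {s V K t : ℝ} (hs : 0 < s) (hV : 1 ≤ V) (hK0 : 0 ≤ K) (hK4 : K ^ 4 ≤ V)
    (ht : 0 < t) (hts : s ^ 2 ≤ t ^ 8) (h : t ^ 7 * s ≤ 384 * K * V) (hbig : 2 ^ 48 * V < s ^ 2) :
    False := by
  have h1 : (t ^ 7 * s) ^ 8 ≤ (384 * K * V) ^ 8 := pow_le_pow_left₀ (by positivity) h 8
  have h2 : (s ^ 2) ^ 7 ≤ (t ^ 8) ^ 7 := pow_le_pow_left₀ (by positivity) hts 7
  have hK8 : (K ^ 4) ^ 2 ≤ V ^ 2 := pow_le_pow_left₀ (by positivity) hK4 2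
  have h3 : (s ^ 2) ^ 11 ≤ 384 ^ 8 * V ^ 11 := by
    calc (s ^ 2) ^ 11 = (s ^ 2) ^ 7 * s ^ 8 := by ring
      _ ≤ (t ^ 8) ^ 7 * s ^ 8 := mul_le_mul_of_nonneg_right h2 (by positivity)
      _ = (t ^ 7 * s) ^ 8 := by ring
      _ ≤ (384 * K * V) ^ 8 := h1
      _ = 384 ^ 8 * V ^ 8 * (K ^ 4) ^ 2 := by ring
      _ ≤ 384 ^ 8 * V ^ 8 * V ^ 2 := mul_le_mul_of_nonneg_left hK8 (by positivity)
      _ = 384 ^ 8 * V ^ 10 := by ring
      _ ≤ 384 ^ 8 * V ^ 11 := by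
        refine mul_le_mul_of_nonneg_left (pow_le_pow_right₀ hV (by norm_num)) (by norm_num)
  have h4 : (2 ^ 48 * V) ^ 11 < (s ^ 2) ^ 11 := pow_lt_pow_left₀ hbig (by positivity) (by norm_num)
  have h5 : (384 : ℝ) ^ 8 * V ^ 11 ≤ (2 ^ 48 * V) ^ 11 := by
    rw [mul_pow]
    exact mul_le_mul_of_nonneg_right (by norm_num) (by positivity)
  linarith

theorem rk2 (P : Par) {M n k b : ℕ} (β x₀ : ℝ) (hβ : |β - x₀| ≤ 1 / 2 ^ b)
    (surv : ∀ q₀ : ℕ, 1 ≤ q₀ → P.stg q₀ < M → P.del q₀ / 4 ≤ nd (q₀ * β) * P.PP q₀)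
    (hX : (2 : ℝ) ^ (n + 1) / 2 ^ b < 1 / 10) (hV : (2 : ℝ) ^ (4 * k) ≤ 2 ^ M / 2 ^ k / 2 ^ b)
    (S : Finset (ℕ × ℤ))
    (hS : ∀ x ∈ S, P.Cls M n k x.1 ∧ |(x.2 : ℝ) / x.1 - x₀| ≤ 5 / 2 ^ b)
    (hd : ∀ a ∈ S, ∀ b ∈ S, ∀ c ∈ S, Matrix.det (Matrix.of ![vec P a, vec P b, vec P c]) = 0) :
    (S.card : ℝ) ≤ 2 ^ 54 * (2 ^ M / 2 ^ k / 2 ^ b) := by
  classical
  by_contra hcon
  push Not at hcon
  obtain ⟨V, hVdef⟩ : ∃ V : ℝ, V = 2 ^ M / 2 ^ k / 2 ^ b := ⟨_, rfl⟩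
  rw [← hVdef] at hcon hV
  have hV1 : 1 ≤ V := le_trans (one_le_pow₀ (by norm_num)) hV
  have hN54 : (2 : ℝ) ^ 54 < S.card := lt_of_le_of_lt (by linarith) hcon
  -- the square root
  obtain ⟨s, hsdef⟩ : ∃ s : ℝ, s = √(S.card : ℝ) / 8 := ⟨_, rfl⟩
  have hsq : √(S.card : ℝ) ^ 2 = S.card := Real.sq_sqrt (Nat.cast_nonneg _)
  have hs2 : s ^ 2 = S.card / 64 := by
    rw [hsdef, div_pow, hsq]
    norm_num
  have hr27 : (2 : ℝ) ^ 27 ≤ √(S.card : ℝ) := by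
    refine Real.le_sqrt_of_sq_le ?_
    rw [← pow_mul]
    exact hN54.le
  have hs24 : (2 : ℝ) ^ 24 ≤ s := by
    rw [hsdef, le_div_iff₀ (by norm_num)]
    calc (2 : ℝ) ^ 24 * 8 = 2 ^ 27 := by norm_num
      _ ≤ _ := hr27
  have hs0 : 0 < s := lt_of_lt_of_le (by norm_num) hs24
  have h8 : 8 / √(S.card : ℝ) = 1 / s := by
    rw [hsdef]
    field_simp
  have h8le : 1 / s ≤ 1 / 2 ^ 24 := one_div_le_one_div_of_le (by norm_num) hs24
  have h8pos : 0 < 1 / s := by positivity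
  -- a member of the class
  have hSne : S.Nonempty := by
    rw [Finset.nonempty_iff_ne_empty]
    intro h0
    rw [h0] at hN54
    norm_num at hN54
  obtain ⟨x₁, hx₁⟩ := hSne
  have hC := (hS x₁ hx₁).1
  have hrho : 0 < Par.rho M n k := by
    unfold Par.rho
    positivity
  have hXpos : (0 : ℝ) < 2 ^ (n + 1) := by positivity
  have hY : 0 < min (Par.rho M n k) (1 / 2) := lt_min hrho (by norm_num)
  have hZ : (0 : ℝ) < 6 * 2 ^ (n + 1) / 2 ^ b := by positivity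
  have hZ1 : (6 : ℝ) * 2 ^ (n + 1) / 2 ^ b < 1 := by
    have e : (6 : ℝ) * 2 ^ (n + 1) / 2 ^ b = 6 * (2 ^ (n + 1) / 2 ^ b) := by ring
    rw [e]
    linarith
  -- the image
  have hcard : (S.image (vec P)).card = S.card := Finset.card_image_of_injective S (vec_inj P)
  have hbox : ∀ v ∈ S.image (vec P), Box P.α β (2 ^ (n + 1)) (min (Par.rho M n k) (1 / 2))
      (6 * 2 ^ (n + 1) / 2 ^ b) v := by
    intro v hv
    obtain ⟨x, hx, rfl⟩ := Finset.mem_image.1 hv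
    exact vec_box P hβ (hS x hx).1 (hS x hx).2
  obtain ⟨ν, hν, hp⟩ := dich (S.image (vec P)) (by
    intro a ha b hb c hc
    obtain ⟨x, hx, rfl⟩ := Finset.mem_image.1 ha
    obtain ⟨y, hy, rfl⟩ := Finset.mem_image.1 hb
    obtain ⟨z, hz, rfl⟩ := Finset.mem_image.1 hc
    exact hd x hx y hy z hz)
  have hcard2 : 2 ≤ (S.image (vec P)).card := by
    rw [hcard]
    have : (2 : ℝ) ≤ S.card := le_trans (by norm_num) hN54.le
    exact_mod_cast this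
  obtain ⟨v1, hv1, hb1⟩ := small P.α β _ _ _ hXpos hY hZ (S.image (vec P)) hbox ν hν hp hcard2
  rw [hcard, h8] at hb1
  obtain ⟨v, hv, hbv, hv0⟩ : ∃ v : Fin 3 → ℤ, v ≠ 0 ∧ Box P.α β (1 / s * 2 ^ (n + 1))
      (1 / s * min (Par.rho M n k) (1 / 2)) (1 / s * (6 * 2 ^ (n + 1) / 2 ^ b)) v ∧ 0 ≤ v 0 := by
    rcases le_total 0 (v1 0) with h | h
    · exact ⟨v1, hv1, hb1, h⟩
    · refine ⟨-v1, neg_ne_zero.2 hv1, rk2_neg hb1, ?_⟩
      rw [Pi.neg_apply]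
      omega
  obtain ⟨b0, b1, b2⟩ := hbv
  have hY2 : min (Par.rho M n k) (1 / 2) ≤ 1 / 2 := min_le_right _ _
  have hYr : min (Par.rho M n k) (1 / 2) ≤ Par.rho M n k := min_le_left _ _
  -- `v 0` is not zero
  have hv0ne : v 0 ≠ 0 := by
    intro h0
    rw [h0] at b1 b2
    rw [Int.cast_zero, zero_mul, zero_sub, abs_neg] at b1 b2
    have e1 : v 1 = 0 := by
      refine rk2_int_zero (lt_of_le_of_lt b1 ?_)
      calc 1 / s * min (Par.rho M n k) (1 / 2) ≤ 1 / 2 ^ 24 * (1 / 2) :=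
            mul_le_mul h8le hY2 hY.le (by positivity)
        _ < 1 := by norm_num
    have e2 : v 2 = 0 := by
      refine rk2_int_zero (lt_of_le_of_lt b2 ?_)
      calc 1 / s * (6 * 2 ^ (n + 1) / 2 ^ b) ≤ 1 / 2 ^ 24 * 1 :=
            mul_le_mul h8le hZ1.le hZ.le (by positivity)
        _ < 1 := by norm_num
    apply hv
    funext i
    fin_cases i
    · exact h0
    · exact e1
    · exact e2
  obtain ⟨q₀, hq₀⟩ : ∃ q₀ : ℕ, (q₀ : ℤ) = v 0 := ⟨(v 0).toNat, Int.toNat_of_nonneg hv0⟩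
  have hq1 : 1 ≤ q₀ := by
    rcases Nat.eq_zero_or_pos q₀ with h | h
    · exfalso
      apply hv0ne
      rw [← hq₀, h]
      rfl
    · exact h
  have hqR : ((v 0 : ℤ) : ℝ) = (q₀ : ℝ) := by
    rw [← hq₀, Int.cast_natCast]
  have hqpos : (0 : ℝ) < q₀ := by exact_mod_cast hq1
  rw [hqR] at b0 b1 b2
  rw [abs_of_pos hqpos] at b0
  have hndα : nd (q₀ * P.α) ≤ 1 / s * Par.rho M n k :=
    (nd_le_abs _ (v 1)).trans (b1.trans (mul_le_mul_of_nonneg_left hYr h8pos.le))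
  have hndβ : nd (q₀ * β) ≤ 1 / s * (6 * 2 ^ (n + 1) / 2 ^ b) := (nd_le_abs _ (v 2)).trans b2
  have hndpos := P.nd_pos hq1
  -- the logarithms
  obtain ⟨u, hu⟩ : ∃ u : ℝ, u = Real.logb 2 (2 ^ (n + 1) / q₀) := ⟨_, rfl⟩
  obtain ⟨v', hv'⟩ : ∃ v' : ℝ, v' = Real.logb 2 (Par.rho M n k / nd (q₀ * P.α)) := ⟨_, rfl⟩
  have e2u : (2 : ℝ) ^ u = 2 ^ (n + 1) / q₀ := by
    rw [hu, Real.rpow_logb (by norm_num) (by norm_num) (by positivity)]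
  have e2v : (2 : ℝ) ^ v' = Par.rho M n k / nd (q₀ * P.α) := by
    rw [hv', Real.rpow_logb (by norm_num) (by norm_num) (by positivity)]
  have hsu : s ≤ (2 : ℝ) ^ u := by
    rw [e2u, le_div_iff₀ hqpos]
    calc s * q₀ ≤ s * (1 / s * 2 ^ (n + 1)) := mul_le_mul_of_nonneg_left b0 hs0.le
      _ = 2 ^ (n + 1) := by field_simp
  have hsv : s ≤ (2 : ℝ) ^ v' := by
    rw [e2v, le_div_iff₀ hndpos]
    calc s * nd (q₀ * P.α) ≤ s * (1 / s * Par.rho M n k) := mul_le_mul_of_nonneg_left hndα hs0.le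
      _ = Par.rho M n k := by field_simp
  have h24 : ∀ z : ℝ, s ≤ (2 : ℝ) ^ z → 24 ≤ z := by
    intro z hz
    by_contra hz'
    push Not at hz'
    have h1 : (2 : ℝ) ^ z < 2 ^ (24 : ℝ) := Real.rpow_lt_rpow_of_exponent_lt (by norm_num) hz'
    have h2 : (2 : ℝ) ^ (24 : ℝ) = 2 ^ 24 := by
      rw [← Real.rpow_natCast]
      norm_num
    rw [h2] at h1
    linarith
  have hu24 := h24 u hsu
  have hv24 := h24 v' hsv
  -- `t = 2 ^ (w / 8)`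
  obtain ⟨t, htdef⟩ : ∃ t : ℝ, t = (2 : ℝ) ^ ((u + v') / 8) := ⟨_, rfl⟩
  have ht0 : 0 < t := by
    rw [htdef]
    exact Real.rpow_pos_of_pos (by norm_num) _
  have ht4 : t ^ 8 = (2 : ℝ) ^ u * 2 ^ v' := by
    rw [htdef, ← Real.rpow_natCast, ← Real.rpow_mul (by norm_num), ← Real.rpow_add (by norm_num)]
    congr 1
    push_cast
    ring
  have hts : s ^ 2 ≤ t ^ 8 := by
    rw [ht4, sq]
    exact mul_le_mul hsu hsv hs0.le (Real.rpow_pos_of_pos (by norm_num) _).le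
  have hstg := hC.stg_lt hq1 u v' hu hv' (by linarith) (by linarith)
  have hdel := hC.del_ge hq1 u v' hu hv' (by linarith) (by linarith)
  have hsurv := surv q₀ hq1 hstg
  -- put together
  have hPP : P.PP q₀ = q₀ * nd (q₀ * P.α) := rfl
  have hq2 : (q₀ : ℝ) = 2 ^ (n + 1) / 2 ^ u := by
    rw [e2u]
    field_simp
  have hnd2 : nd (q₀ * P.α) = Par.rho M n k / 2 ^ v' := by
    rw [e2v]
    field_simp
  have h2u : (0 : ℝ) < 2 ^ u := Real.rpow_pos_of_pos (by norm_num) _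
  have h2v : (0 : ℝ) < 2 ^ v' := Real.rpow_pos_of_pos (by norm_num) _
  have hXYZ : 1 / s * (6 * 2 ^ (n + 1) / 2 ^ b) * (2 ^ (n + 1) / 2 ^ u * (Par.rho M n k / 2 ^ v')) =
      24 * V / s / t ^ 8 := by
    rw [ht4, hVdef]
    unfold Par.rho
    have h5 : (4 : ℝ) ^ n = 2 ^ n * 2 ^ n := by
      rw [← mul_pow]
      norm_num
    rw [h5, pow_succ]
    field_simp
    norm_num
  have hmain : 1 / (2 ^ (k + 2) * t) / 4 ≤ 24 * V / s / t ^ 8 := by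
    have hd4 : 1 / (2 ^ (k + 2) * t) / 4 ≤ P.del q₀ / 4 := by
      rw [htdef]
      exact div_le_div_of_nonneg_right hdel (by norm_num)
    refine hd4.trans (hsurv.trans ?_)
    rw [hPP]
    calc nd (q₀ * β) * (q₀ * nd (q₀ * P.α))
        ≤ 1 / s * (6 * 2 ^ (n + 1) / 2 ^ b) * (q₀ * nd (q₀ * P.α)) :=
          mul_le_mul_of_nonneg_right hndβ (by positivity)
      _ = 24 * V / s / t ^ 8 := by rw [← hXYZ, ← hnd2, ← hq2]
  have hfin : t ^ 7 * s ≤ 384 * 2 ^ k * V := by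
    have h1 := hmain
    rw [div_div, div_div, div_le_div_iff₀ (by positivity) (by positivity), one_mul] at h1
    have h2 : t * (t ^ 7 * s) ≤ t * (384 * 2 ^ k * V) := by
      calc t * (t ^ 7 * s) = s * t ^ 8 := by ring
        _ ≤ 24 * V * (2 ^ (k + 2) * t * 4) := h1
        _ = t * (384 * 2 ^ k * V) := by rw [pow_add]; ring
    exact le_of_mul_le_mul_left h2 ht0
  refine rk2_num (K := 2 ^ k) hs0 hV1 (by positivity) ?_ ht0 hts hfin ?_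
  · rw [← pow_mul, mul_comm k 4]
    exact hV
  · rw [hs2, lt_div_iff₀ (by norm_num)]
    calc 2 ^ 48 * V * 64 = 2 ^ 54 * V := by ring
      _ < _ := hcon

end Pool.Agent.H19.LX
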