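import Pool.Agent.H19.LX.Alp
import Pool.Agent.H19.LX.Rk2
import Pool.Agent.H19.LW.Rk3
import Pool.Agent.H19.LX.Ext
import Pool.Agent.H19.LW.Nine

/-!
# Module Cnt (about 130 lines): the killed nodes of a class under one node

Proof. Let `M = m + 1`, `V = 2^M/2^k/2^b`, `C = max (240/c) (2^54)`. If `A` is empty nothing is to be
shown; else take `a₁ ∈ A`, `a' = a₁/2 ∈ G K m` and `β = a'/2^m`. By `nine_mul` (with `Q x` =
`P.Cls M n k x.1`, which every `a ∈ A` has by `KillC`) it is enough to bound `card S` by `C V` for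
finite `S` whose elements `(q,r)` are in the class and have `|r/q - a/2^M| ≤ 4/2^M` for some `a ∈ A`.
Put `x₀ = a₀/2^b`. For `a ∈ A`, `a/2^(M-b) = a₀` gives `0 ≤ a/2^M - x₀ ≤ 1/2^b`
(`a₀ 2^(M-b) ≤ a < (a₀+1) 2^(M-b)`), so `|r/q - x₀| ≤ 4/2^M + 1/2^b ≤ 5/2^b`; in the same way
`|β - x₀| ≤ 1/2^b` (`a'/2^(m-b) = a₀`).
If `2^(n+1)/2^b ≥ 1/10`: `triv`. Otherwise `b ≥ 1`, so `M = b + 5 k` and `V = 2^(4k)`.
The hypothesis `surv` of `rk2`: for `1 ≤ q₀`, `j = stg q₀ ≤ m` the node `a'/2^(m-j)` is in `G K j`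
(`anc`) and holds `β`, so `surv` applies. If three elements of the image of `S` under `vec P` have
nonzero determinant: `rk3` with the box of `vec_box`, `card S ≤ 512 X Y Z ≤ 512 24 V` because
`X ρ 6 X/2^b = 24 V`. Otherwise `rk2`. (`12288 ≤ 2^54`.)
-/

set_option autoImplicit false

namespace Pool.Agent.H19.LX

open Pool.Agent.H19.LW

/-- `a/2^d = a₀` puts `a/2^M` into the node `(b,a₀)`, `M = b + d` -/
private lemma Cnt_node {M b d a a₀ : ℕ} (hM : M = b + d) (h : a / 2 ^ d = a₀) :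
    (a₀ : ℝ) / 2 ^ b ≤ (a : ℝ) / 2 ^ M ∧ (a : ℝ) / 2 ^ M ≤ ((a₀ : ℝ) + 1) / 2 ^ b := by
  have h1 : a₀ * 2 ^ d ≤ a := by
    rw [← h]
    exact Nat.div_mul_le_self a (2 ^ d)
  have h2 : a ≤ (a₀ + 1) * 2 ^ d := by
    rw [← h]
    have h3 := Nat.lt_div_mul_add (a := a) (b := 2 ^ d) (by positivity)
    have h4 : (a / 2 ^ d + 1) * 2 ^ d = a / 2 ^ d * 2 ^ d + 2 ^ d := by ring
    omega
  have h1' : (a₀ : ℝ) * 2 ^ d ≤ a := by exact_mod_cast h1
  have h2' : (a : ℝ) ≤ ((a₀ : ℝ) + 1) * 2 ^ d := by exact_mod_cast h2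
  rw [hM, pow_add]
  constructor
  · rw [div_le_div_iff₀ (by positivity) (by positivity)]
    calc (a₀ : ℝ) * (2 ^ b * 2 ^ d) = (a₀ * 2 ^ d) * 2 ^ b := by ring
      _ ≤ a * 2 ^ b := mul_le_mul_of_nonneg_right h1' (by positivity)
  · rw [div_le_div_iff₀ (by positivity) (by positivity)]
    calc (a : ℝ) * 2 ^ b ≤ (((a₀ : ℝ) + 1) * 2 ^ d) * 2 ^ b :=
          mul_le_mul_of_nonneg_right h2' (by positivity)
      _ = ((a₀ : ℝ) + 1) * (2 ^ b * 2 ^ d) := by ring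

/-- the bound for the pairs -/
private lemma Cnt_pairs (P : Par) (K : ℕ → ℕ → Prop) (hK : ∀ M a, P.Kill M a → K M a)
    {m n k b : ℕ} (hk : 1 ≤ k) (hb : b = m + 1 - 5 * k) {a₀ a' : ℕ} (ha' : a' ∈ G K m)
    (ha₀ : a' / 2 ^ (m - b) = a₀) (S : Finset (ℕ × ℤ))
    (hS : ∀ x ∈ S, P.Cls (m + 1) n k x.1 ∧ |(x.2 : ℝ) / x.1 - (a₀ : ℝ) / 2 ^ b| ≤ 5 / 2 ^ b) :
    (S.card : ℝ) ≤ max (240 / P.c) (2 ^ 54) * (2 ^ (m + 1) / 2 ^ k / 2 ^ b) := by
  classical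
  have hbm : b ≤ m := by omega
  have hV0 : (0 : ℝ) ≤ 2 ^ (m + 1) / 2 ^ k / 2 ^ b := by positivity
  rcases le_or_gt ((1 : ℝ) / 10) (2 ^ (n + 1) / 2 ^ b) with hX | hX
  · exact (triv P _ S hS hX).trans (mul_le_mul_of_nonneg_right (le_max_left _ _) hV0)
  have h54 : (2 : ℝ) ^ 54 * (2 ^ (m + 1) / 2 ^ k / 2 ^ b) ≤
      max (240 / P.c) (2 ^ 54) * (2 ^ (m + 1) / 2 ^ k / 2 ^ b) :=
    mul_le_mul_of_nonneg_right (le_max_right _ _) hV0
  have hb1 : 1 ≤ b := by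
    by_contra h0
    have h1 : b = 0 := by omega
    rw [h1, pow_zero, div_one] at hX
    have h2 : (1 : ℝ) ≤ 2 ^ (n + 1) := one_le_pow₀ (by norm_num)
    linarith
  have hM : m + 1 = b + 5 * k := by omega
  have hnode := Cnt_node (M := m) (b := b) (d := m - b) (by omega) ha₀
  have hβ : |(a' : ℝ) / 2 ^ m - (a₀ : ℝ) / 2 ^ b| ≤ 1 / 2 ^ b := by
    rw [abs_of_nonneg (by linarith [hnode.1])]
    have h1 := hnode.2
    rw [add_div] at h1
    linarith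
  have hsurv : ∀ q₀ : ℕ, 1 ≤ q₀ → P.stg q₀ < m + 1 →
      P.del q₀ / 4 ≤ nd (q₀ * ((a' : ℝ) / 2 ^ m)) * P.PP q₀ := by
    intro q₀ h1 h2
    have hj : P.stg q₀ ≤ m := by omega
    have h3 := anc ha' hj
    have h4 := Cnt_node (M := m) (b := P.stg q₀) (d := m - P.stg q₀) (a := a') (by omega) rfl
    exact surv P K hK h1 h3 _ h4.1 h4.2
  by_cases hd : ∀ a ∈ S, ∀ b ∈ S, ∀ c ∈ S,
      Matrix.det (Matrix.of ![vec P a, vec P b, vec P c]) = 0
  · refine (rk2 P ((a' : ℝ) / 2 ^ m) _ hβ hsurv hX ?_ S hS hd).trans h54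
    rw [hM]
    have e : (2 : ℝ) ^ (b + 5 * k) / 2 ^ k / 2 ^ b = 2 ^ (4 * k) := by
      rw [show b + 5 * k = b + k + 4 * k by ring, pow_add, pow_add]
      field_simp
    rw [e]
  · push Not at hd
    obtain ⟨u, hu, v, hv, w, hw, hne⟩ := hd
    have hρ : 0 < Par.rho (m + 1) n k := by
      unfold Par.rho
      positivity
    have h3 := rk3 P.α ((a' : ℝ) / 2 ^ m) (2 ^ (n + 1)) (min (Par.rho (m + 1) n k) (1 / 2))
      (6 * 2 ^ (n + 1) / 2 ^ b) (by positivity) (lt_min hρ (by norm_num)) (by positivity)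
      (S.image (vec P)) (by
        intro x hx
        obtain ⟨y, hy, rfl⟩ := Finset.mem_image.1 hx
        exact vec_box P hβ (hS y hy).1 (hS y hy).2) (vec P u) (vec P v) (vec P w)
      (Finset.mem_image_of_mem _ hu) (Finset.mem_image_of_mem _ hv)
      (Finset.mem_image_of_mem _ hw) hne
    rw [Finset.card_image_of_injective _ (vec_inj P)] at h3
    refine h3.trans (le_trans ?_ h54)
    have h4 : (2 : ℝ) ^ (n + 1) * min (Par.rho (m + 1) n k) (1 / 2) * (6 * 2 ^ (n + 1) / 2 ^ b) ≤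
        24 * (2 ^ (m + 1) / 2 ^ k / 2 ^ b) := by
      calc (2 : ℝ) ^ (n + 1) * min (Par.rho (m + 1) n k) (1 / 2) * (6 * 2 ^ (n + 1) / 2 ^ b)
          ≤ 2 ^ (n + 1) * Par.rho (m + 1) n k * (6 * 2 ^ (n + 1) / 2 ^ b) := by
            refine mul_le_mul_of_nonneg_right ?_ (by positivity)
            exact mul_le_mul_of_nonneg_left (min_le_left _ _) (by positivity)
        _ = 24 * (2 ^ (m + 1) / 2 ^ k / 2 ^ b) := by
            unfold Par.rho
            have h7 : (4 : ℝ) ^ n = 2 ^ n * 2 ^ n := by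
              rw [← mul_pow]
              norm_num
            rw [h7, pow_succ 2 n]
            field_simp
            norm_num
    calc 512 * ((2 : ℝ) ^ (n + 1) * min (Par.rho (m + 1) n k) (1 / 2) *
          (6 * 2 ^ (n + 1) / 2 ^ b)) ≤ 512 * (24 * (2 ^ (m + 1) / 2 ^ k / 2 ^ b)) := by
          gcongr
      _ = (512 * 24) * (2 ^ (m + 1) / 2 ^ k / 2 ^ b) := by ring
      _ ≤ 2 ^ 54 * (2 ^ (m + 1) / 2 ^ k / 2 ^ b) :=
          mul_le_mul_of_nonneg_right (by norm_num) hV0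

theorem cnt (P : Par) (K : ℕ → ℕ → Prop) (hK : ∀ M a, P.Kill M a → K M a) (m n k b : ℕ)
    (hk : 1 ≤ k) (hb : b = m + 1 - 5 * k) (a₀ : ℕ) (A : Finset ℕ)
    (hA : ∀ a ∈ A, a ∈ Bd K m ∧ P.KillC (m + 1) n k a ∧ a / 2 ^ (m + 1 - b) = a₀) :
    (A.card : ℝ) ≤ 9 * (max (240 / P.c) (2 ^ 54) * (2 ^ (m + 1) / 2 ^ k / 2 ^ b)) := by
  classical
  rcases A.eq_empty_or_nonempty with h0 | ⟨a₁, ha₁⟩
  · rw [h0, Finset.card_empty]
    push_cast
    have : (0 : ℝ) ≤ max (240 / P.c) (2 ^ 54) := le_trans (by positivity) (le_max_right _ _)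
    positivity
  have hbm : b ≤ m := by omega
  obtain ⟨h1, -, h3⟩ := hA a₁ ha₁
  have h4 : a₁ / 2 ∈ G K m := by
    unfold Bd at h1
    exact (Finset.mem_filter.1 h1).2.1
  have h5 : a₁ / 2 / 2 ^ (m - b) = a₀ := by
    rw [← h3, Nat.div_div_eq_div_mul]
    congr 1
    rw [show m + 1 - b = (m - b) + 1 by omega, pow_succ]
    ring
  refine nine_mul (m + 1) A (fun x => P.Cls (m + 1) n k x.1) _ ?_ ?_
  · intro a ha
    obtain ⟨q, hq, r, hr⟩ := (hA a ha).2.1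
    exact ⟨(q, r), hq, hr⟩
  · intro S hS
    refine Cnt_pairs P K hK (n := n) hk hb h4 h5 S ?_
    intro x hx
    obtain ⟨h6, a, ha, h7⟩ := hS x hx
    refine ⟨h6, ?_⟩
    have h8 := Cnt_node (M := m + 1) (b := b) (d := m + 1 - b) (by omega) (hA a ha).2.2
    have h9 : |(a : ℝ) / 2 ^ (m + 1) - (a₀ : ℝ) / 2 ^ b| ≤ 1 / 2 ^ b := by
      rw [abs_of_nonneg (by linarith [h8.1])]
      have h10 := h8.2
      rw [add_div] at h10
      linarith
    have h11 : (4 : ℝ) / 2 ^ (m + 1) ≤ 4 / 2 ^ b := by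
      refine div_le_div_of_nonneg_left (by norm_num) (by positivity) ?_
      exact pow_le_pow_right₀ (by norm_num) (by omega)
    have h12 : (x.2 : ℝ) / x.1 - (a₀ : ℝ) / 2 ^ b =
        ((x.2 : ℝ) / x.1 - (a : ℝ) / 2 ^ (m + 1)) +
          ((a : ℝ) / 2 ^ (m + 1) - (a₀ : ℝ) / 2 ^ b) := by ring
    rw [h12]
    refine (abs_add_le _ _).trans ?_
    have h13 : (5 : ℝ) / 2 ^ b = 4 / 2 ^ b + 1 / 2 ^ b := by ring
    rw [h13]
    exact add_le_add (h7.trans h11) h9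

end Pool.Agent.H19.LX
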