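import Pool.Agent.H19.LW.Def

/-!
# Limits of Littlewood's conjecture with general weights: definitions (MP_0ea415_nt)

PAPER. `‖x‖ = nd x`. The cell of `q ≥ 1` is `(n, a)` with `2^n ≤ q < 2^(n+1)` and
`2^a ≤ ‖q α‖ < 2^(a+1)`. A function `l` of the cells has `κ ≤ l`, varies slowly, and on every line
`a + 2 n = τ` at most `2^((k-κ)/(1+ε))` cells have `l ≤ k`. Put `del q = 2^(-l(cell of q))`,
`PP q = q ‖q α‖`, `lam q = q PP q`, `stg q = 2 n + a + l + 3`.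
In the dyadic tree of `[0,1]` the node `(m,a)` is killed by `q` of stage `m` if some `r/q` has
`|r/q - a/2^m| ≤ 4/2^m`. A `β` in a branch without killed nodes has
`q ‖q α‖ ‖q β‖ ≥ del q / 4` for all `q ≥ 1`.
-/

set_option autoImplicit false

namespace Pool.Agent.H19.LX

open Real
open Pool.Agent.H19.LW (nd)

/-- the parameters: `α` badly approximable with constant `c`, the levels `l` of the cells -/
structure Par where
  α : ℝ
  ε : ℝ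
  c : ℝ
  κ : ℕ
  l : ℤ → ℤ → ℕ
  c0 : 0 < c
  bad : ∀ q : ℕ, 1 ≤ q → c ≤ q * nd (q * α)
  ε0 : 0 < ε
  ε1 : ε ≤ 1
  κc : 2 ≤ c * 2 ^ κ
  κ1 : 1 ≤ κ
  κl : ∀ n a, κ ≤ l n a
  slow : ∀ n a n' a' : ℤ, (l n' a' : ℝ) ≤ l n a + (|(n : ℝ) - n'| + |(a : ℝ) - a'|) / 8 + 1
  line : ∀ (τ : ℤ) (k : ℕ) (N : Finset ℤ), (∀ n ∈ N, l n (τ - 2 * n) ≤ k) →
    (N.card : ℝ) ≤ (2 : ℝ) ^ (((k : ℝ) - κ) / (1 + ε))

namespace Par

variable (P : Par)

/-- `q ‖q α‖` -/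
noncomputable def PP (q : ℕ) : ℝ := q * nd (q * P.α)

/-- `q² ‖q α‖` -/
noncomputable def lam (q : ℕ) : ℝ := q * P.PP q

/-- the exponent `a` of the cell of `q` -/
noncomputable def ca (q : ℕ) : ℤ := Int.log 2 (nd (q * P.α))

/-- the level of the cell of `q` -/
noncomputable def lev (q : ℕ) : ℕ := P.l (Nat.log 2 q) (P.ca q)

/-- `2^(-lev q)` -/
noncomputable def del (q : ℕ) : ℝ := 1 / 2 ^ P.lev q

/-- the stage of `q`: `2 n + a + l + 3` -/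
noncomputable def stg (q : ℕ) : ℕ := (2 * (Nat.log 2 q : ℤ) + P.ca q + P.lev q + 3).toNat

/-- `q` of stage `M` kills the node `(M,a)` -/
def Kill (M a : ℕ) : Prop :=
  ∃ q : ℕ, 1 ≤ q ∧ P.stg q = M ∧ ∃ r : ℤ, |(r : ℝ) / q - a / 2 ^ M| ≤ 4 / 2 ^ M

/-- the class `(n,k)` of the `q` of stage `M` -/
structure Cls (M n k q : ℕ) : Prop where
  stg : P.stg q = M
  lo : 2 ^ n ≤ q
  hi : q < 2 ^ (n + 1)
  lev : P.lev q = k

/-- a `q` of the class `(n,k)` of stage `M` kills the node `(M,a)` -/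
def KillC (M n k a : ℕ) : Prop :=
  ∃ q : ℕ, P.Cls M n k q ∧ ∃ r : ℤ, |(r : ℝ) / q - a / 2 ^ M| ≤ 4 / 2 ^ M

/-- the bound for `‖q α‖` in a class -/
noncomputable def rho (M n k : ℕ) : ℝ := 2 ^ M / 2 ^ k / 4 ^ n

end Par

end Pool.Agent.H19.LX
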