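import Pool.Agent.H19.LX.Cls

/-!
# Module Est (about 90 lines): `del` and the stage of a short vector

Let `q` be in the class `(n,k)` of stage `M`, `1 ≤ q₀`, `u = log₂ (2^(n+1)/q₀) ≥ 0`,
`v = log₂ (rho M n k/nd(q₀ α)) ≥ 0`, `n₀ = Nat.log 2 q₀`, `a₀ = ca q₀`, `a = M - k - 3 - 2 n`. Then
`log₂ q₀ = n + 1 - u ∈ [n₀, n₀+1)`, so `|n - n₀| ≤ u + 1`; `log₂ nd(q₀ α) = M - k - 2n - v ∈
[a₀, a₀+1)`, so `|a - a₀| ≤ v + 3`. `slow` at the cells `(n,a)` (level `k` by `Cls.l_eq`) and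
`(n₀,a₀)`: `lev q₀ ≤ k + (u + v + 4)/8 + 1 ≤ k + 2 + (u+v)/8`. This is `lev_le`, and `del_ge`.
`stg_lt`: `stg q₀ = 2 n₀ + a₀ + lev q₀ + 3 ≤ 2 (n+1-u) + (M-k-2n-v) + k + 2 + (u+v)/8 + 3
= M + 7 - 15u/8 - 7v/8 < M` for `u ≥ 8`, `v ≥ 0`.
-/

set_option autoImplicit false

namespace Pool.Agent.H19.LX

open Real
open Pool.Agent.H19.LW (nd)

private theorem Est_aux {P : Par} {M n k q₀ : ℕ} (h1 : 1 ≤ q₀) (u v : ℝ)
    (hu : u = logb 2 (2 ^ (n + 1) / q₀))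
    (hv : v = logb 2 (Par.rho M n k / nd (q₀ * P.α))) :
    ((Nat.log 2 q₀ : ℕ) : ℝ) ≤ n + 1 - u ∧ (n : ℝ) - u < (Nat.log 2 q₀ : ℕ) ∧
      ((P.ca q₀ : ℤ) : ℝ) ≤ M - k - 2 * n - v ∧ (M : ℝ) - k - 2 * n - v - 1 < (P.ca q₀ : ℤ) := by
  have hq : (0 : ℝ) < q₀ := by exact_mod_cast h1
  have hnd := P.nd_pos h1
  have hb : (1 : ℝ) < 2 := by norm_num
  have e1 : u = (n : ℝ) + 1 - logb 2 q₀ := by
    rw [hu, logb_div (by positivity) hq.ne', logb_pow, logb_self_eq_one hb]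
    push_cast
    ring
  have e2 : v = (M : ℝ) - k - 2 * n - logb 2 (nd (q₀ * P.α)) := by
    have e4 : (4 : ℝ) ^ n = 2 ^ (2 * n) := by
      rw [pow_mul]; norm_num
    rw [hv, logb_div (by unfold Par.rho; positivity) hnd.ne']
    unfold Par.rho
    rw [e4, logb_div (by positivity) (by positivity), logb_div (by positivity) (by positivity),
      logb_pow, logb_pow, logb_pow, logb_self_eq_one hb]
    push_cast
    ring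
  have f1 : ((Nat.log 2 q₀ : ℕ) : ℝ) ≤ logb 2 q₀ := by
    rw [le_logb_iff_rpow_le hb hq, rpow_natCast]
    exact_mod_cast Nat.pow_log_le_self 2 (by omega)
  have f2 : logb 2 q₀ < ((Nat.log 2 q₀ : ℕ) : ℝ) + 1 := by
    rw [logb_lt_iff_lt_rpow hb hq]
    have : ((Nat.log 2 q₀ : ℕ) : ℝ) + 1 = ((Nat.log 2 q₀ + 1 : ℕ) : ℝ) := by push_cast; ring
    rw [this, rpow_natCast]
    exact_mod_cast Nat.lt_pow_succ_log_self (by norm_num) q₀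
  have f3 : ((P.ca q₀ : ℤ) : ℝ) ≤ logb 2 (nd (q₀ * P.α)) := by
    rw [le_logb_iff_rpow_le hb hnd, rpow_intCast]
    exact P.ca_le h1
  have f4 : logb 2 (nd (q₀ * P.α)) < ((P.ca q₀ : ℤ) : ℝ) + 1 := by
    rw [logb_lt_iff_lt_rpow hb hnd]
    have : ((P.ca q₀ : ℤ) : ℝ) + 1 = ((P.ca q₀ + 1 : ℤ) : ℝ) := by push_cast; ring
    rw [this, rpow_intCast]
    exact P.lt_ca h1
  refine ⟨by linarith, by linarith, by linarith, by linarith⟩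

namespace Par

variable {P : Par} {M n k q : ℕ}

theorem Cls.lev_le (h : P.Cls M n k q) {q₀ : ℕ} (h1 : 1 ≤ q₀) (u v : ℝ)
    (hu : u = logb 2 (2 ^ (n + 1) / q₀)) (hv : v = logb 2 (rho M n k / nd (q₀ * P.α)))
    (hu0 : 0 ≤ u) (hv0 : 0 ≤ v) : (P.lev q₀ : ℝ) ≤ k + 2 + (u + v) / 8 := by
  obtain ⟨g1, g2, g3, g4⟩ := Est_aux h1 u v hu hv
  have hs := P.slow (n : ℤ) ((M : ℤ) - k - 3 - 2 * n) (Nat.log 2 q₀ : ℤ) (P.ca q₀)
  rw [h.l_eq] at hs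
  have hl : P.lev q₀ = P.l (Nat.log 2 q₀) (P.ca q₀) := rfl
  rw [hl]
  push_cast at hs
  have b1 : |(n : ℝ) - (Nat.log 2 q₀ : ℕ)| ≤ u + 1 := by
    rw [abs_le]
    constructor <;> linarith
  have b2 : |(M : ℝ) - k - 3 - 2 * n - (P.ca q₀ : ℤ)| ≤ v + 3 := by
    rw [abs_le]
    constructor <;> linarith
  linarith

theorem Cls.del_ge (h : P.Cls M n k q) {q₀ : ℕ} (h1 : 1 ≤ q₀) (u v : ℝ)
    (hu : u = logb 2 (2 ^ (n + 1) / q₀)) (hv : v = logb 2 (rho M n k / nd (q₀ * P.α)))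
    (hu0 : 0 ≤ u) (hv0 : 0 ≤ v) : 1 / (2 ^ (k + 2) * (2 : ℝ) ^ ((u + v) / 8)) ≤ P.del q₀ := by
  have hl := h.lev_le h1 u v hu hv hu0 hv0
  unfold del
  apply one_div_le_one_div_of_le (by positivity)
  calc (2 : ℝ) ^ P.lev q₀ = (2 : ℝ) ^ ((P.lev q₀ : ℕ) : ℝ) := by rw [rpow_natCast]
    _ ≤ (2 : ℝ) ^ ((k : ℝ) + 2 + (u + v) / 8) := rpow_le_rpow_of_exponent_le (by norm_num) hl
    _ = 2 ^ (k + 2) * (2 : ℝ) ^ ((u + v) / 8) := by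
      rw [rpow_add (by norm_num), ← rpow_natCast 2 (k + 2)]
      push_cast
      rfl

theorem Cls.stg_lt (h : P.Cls M n k q) {q₀ : ℕ} (h1 : 1 ≤ q₀) (u v : ℝ)
    (hu : u = logb 2 (2 ^ (n + 1) / q₀)) (hv : v = logb 2 (rho M n k / nd (q₀ * P.α)))
    (hu8 : 8 ≤ u) (hv0 : 0 ≤ v) : P.stg q₀ < M := by
  have hl := h.lev_le h1 u v hu hv (by linarith) hv0
  obtain ⟨g1, g2, g3, g4⟩ := Est_aux h1 u v hu hv
  have hs := P.stg_eq h1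
  have hs' : (P.stg q₀ : ℝ) = 2 * ((Nat.log 2 q₀ : ℕ) : ℝ) + (P.ca q₀ : ℤ) + P.lev q₀ + 3 := by
    exact_mod_cast hs
  have : (P.stg q₀ : ℝ) < M := by
    rw [hs']
    linarith
  exact_mod_cast this

end Par

end Pool.Agent.H19.LX
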