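import Pool.Agent.H19.LX.Main
import Pool.Agent.H19.LW.DimH

/-!
# Module Fin (about 60 lines): countable sets

Proof (compare `Pool/Agent/H19/LW/Fin.lean`). If `A` or `W` is empty the set is all of `ℝ`. We may
assume `ε ≤ 1`: `0 ≤ F n a ≤ 1` (a line sum with one term), so `F^(1+ε) ≤ F^(1+min ε 1)`. Enumerate
`A × W`, apply `dim_one` and `main_seq`.
-/

set_option autoImplicit false

namespace Pool.Agent.H19.LX

open Pool.Agent.H19.LW

theorem weights (A : Set ℝ) (hA : A.Countable)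
    (hbad : ∀ α ∈ A, ∃ c > 0, ∀ q : ℕ, 1 ≤ q → c ≤ q * |q * α - round (q * α)|)
    (W : Set (ℤ → ℤ → ℝ)) (hW : W.Countable) (hpos : ∀ F ∈ W, ∀ n a, 0 ≤ F n a)
    (hsum : ∀ F ∈ W, ∀ (τ : ℤ) (N : Finset ℤ), ∑ n ∈ N, F n (τ - 2 * n) ≤ 1)
    (ε : ℝ) (hε : 0 < ε) :
    dimH {β : ℝ | ∀ α ∈ A, ∀ F ∈ W, ∃ c > 0, ∀ q : ℕ, 1 ≤ q →
        c * F ⌊Real.logb 2 q⌋ ⌊Real.logb 2 |q * α - round (q * α)|⌋ ^ (1 + ε) ≤
          q * |q * α - round (q * α)| * |q * β - round (q * β)|} = 1 := by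
  rcases (A ×ˢ W).eq_empty_or_nonempty with he | hne
  · have hS : {β : ℝ | ∀ α ∈ A, ∀ F ∈ W, ∃ c > 0, ∀ q : ℕ, 1 ≤ q →
        c * F ⌊Real.logb 2 q⌋ ⌊Real.logb 2 |q * α - round (q * α)|⌋ ^ (1 + ε) ≤
          q * |q * α - round (q * α)| * |q * β - round (q * β)|} = Set.univ := by
      ext β
      refine ⟨fun _ => Set.mem_univ _, fun _ => ?_⟩
      intro α ha F hF
      exact absurd (show (α, F) ∈ A ×ˢ W from ⟨ha, hF⟩) (by rw [he]; exact Set.notMem_empty _)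
    rw [hS]
    exact Real.dimH_univ
  obtain ⟨f, hf⟩ := (hA.prod hW).exists_eq_range hne
  have hmem : ∀ i, f i ∈ A ×ˢ W := fun i => by
    rw [hf]
    exact Set.mem_range_self i
  have hbad' : ∀ i, ∃ c > 0, ∀ q : ℕ, 1 ≤ q →
      c ≤ q * |q * (f i).1 - round (q * (f i).1)| := fun i => hbad _ (hmem i).1
  choose c hc0 hc using hbad'
  have hε' : 0 < min ε 1 := lt_min hε one_pos
  apply dim_one
  intro g g0 g2
  obtain ⟨ζ, hζ, h⟩ := main_seq (min ε 1) hε' (min_le_right _ _) (fun i => (f i).1)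
    (fun i => (f i).2) c hc0 hc (fun i => hpos _ (hmem i).2) (fun i => hsum _ (hmem i).2) g g0 g2
  refine ⟨ζ, hζ, fun E hE0 hE => ?_⟩
  obtain ⟨β, h1, h2, h3, h4⟩ := h E hE0 hE
  refine ⟨β, ?_, h2, h3, h4⟩
  intro α ha F hF
  have hm : (α, F) ∈ Set.range f := by
    rw [← hf]
    exact ⟨ha, hF⟩
  obtain ⟨i, hi⟩ := hm
  have hi1 : (f i).1 = α := by rw [hi]
  have hi2 : (f i).2 = F := by rw [hi]
  obtain ⟨C, hC, hq1⟩ := h1 i
  refine ⟨C, hC, fun q hq => ?_⟩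
  have hq1 := hq1 q hq
  simp only [hi1, hi2] at hq1
  have e1 : ⌊Real.logb 2 (q : ℝ)⌋ = (Nat.log 2 q : ℤ) := by
    have h5 := Real.floor_logb_natCast (b := 2) (r := (q : ℝ)) (Nat.cast_nonneg q)
    rw [Nat.cast_ofNat] at h5
    rw [h5]
    exact Int.log_natCast 2 q
  have e2 : ⌊Real.logb 2 |(q : ℝ) * α - round (q * α)|⌋ = Int.log 2 (nd (q * α)) := by
    have h5 := Real.floor_logb_natCast (b := 2) (r := nd (q * α)) (abs_nonneg _)
    rw [Nat.cast_ofNat] at h5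
    exact h5
  rw [e1, e2]
  have h6 := hpos F hF (Nat.log 2 q) (Int.log 2 (nd (q * α)))
  have h7 : F (Nat.log 2 q) (Int.log 2 (nd (q * α))) ≤ 1 := by
    have h8 := hsum F hF (Int.log 2 (nd (q * α)) + 2 * (Nat.log 2 q : ℤ)) {(Nat.log 2 q : ℤ)}
    rw [Finset.sum_singleton, add_sub_cancel_right] at h8
    exact h8
  have h9 : F (Nat.log 2 q) (Int.log 2 (nd (q * α))) ^ (1 + ε) ≤
      F (Nat.log 2 q) (Int.log 2 (nd (q * α))) ^ (1 + min ε 1) := by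
    refine Real.rpow_le_rpow_of_exponent_ge_of_imp h6 h7 ?_ ?_
    · linarith [min_le_left ε 1]
    · intro _ h10
      linarith
  calc _ ≤ C * F (Nat.log 2 q) (Int.log 2 (nd (q * α))) ^ (1 + min ε 1) :=
        mul_le_mul_of_nonneg_left h9 (le_of_lt hC)
    _ ≤ nd (q * β) * (q * nd (q * α)) := hq1
    _ = q * |q * α - round (q * α)| * |q * β - round (q * β)| := by
        simp only [nd]
        ring

end Pool.Agent.H19.LX
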