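import Pool.Agent.H19.LX.Smo

/-!
# Module Wgt (about 80 lines): the levels of a weight

PROOF. `B`, `ψ` from `smooth`; `ψ n a ≤ B` (a line sum with one term, `τ = a + 2n`). Put
`l n a = κ + ⌈(1+ε) log₂ (B/ψ n a)⌉₊`. `slow`: the slow variation gives
`log₂ (B/ψ n' a') ≤ log₂ (B/ψ n a) + (|n-n'|+|a-a'|)/16` (use `smooth` with the two cells exchanged),
times `1 + ε ≤ 2`; `⌈x⌉₊ ≤ x + 1` for `x ≥ 0`, `x ≤ ⌈x⌉₊`. `line`: `l n (τ-2n) ≤ k` gives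
`(1+ε) log₂ (B/ψ) ≤ k - κ`, `ψ ≥ B 2^(-(k-κ)/(1+ε))`; the line sum is at most `B`. The last
inequality: `l ≤ κ + (1+ε) log₂ (B/ψ) + 1`, so `2^(-l) ≥ 2^(-κ-1) (ψ/B)^(1+ε)
≥ 2^(-κ) (B^(-(1+ε))/2) F^(1+ε)`; `C = B^(-(1+ε))/2` does not depend on `κ`.
-/

set_option autoImplicit false

namespace Pool.Agent.H19.LX

open Real

theorem exists_l (ε : ℝ) (h0 : 0 < ε) (h1 : ε ≤ 1) (F : ℤ → ℤ → ℝ) (hF : ∀ n a, 0 ≤ F n a)
    (hs : ∀ (τ : ℤ) (N : Finset ℤ), ∑ n ∈ N, F n (τ - 2 * n) ≤ 1) :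
    ∃ C : ℝ, 0 < C ∧ ∀ κ : ℕ, ∃ l : ℤ → ℤ → ℕ, (∀ n a, κ ≤ l n a) ∧
      (∀ n a n' a' : ℤ, (l n' a' : ℝ) ≤ l n a + (|(n : ℝ) - n'| + |(a : ℝ) - a'|) / 8 + 1) ∧
      (∀ (τ : ℤ) (k : ℕ) (N : Finset ℤ), (∀ n ∈ N, l n (τ - 2 * n) ≤ k) →
        (N.card : ℝ) ≤ (2 : ℝ) ^ (((k : ℝ) - κ) / (1 + ε))) ∧
      ∀ n a : ℤ, C / 2 ^ κ * F n a ^ (1 + ε) ≤ 1 / 2 ^ l n a := by
  obtain ⟨B, hB, hall⟩ := smooth
  obtain ⟨ψ, hψ0, hFψ, hψs, hψ⟩ := hall F hF hs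
  have hψB : ∀ n a, ψ n a ≤ B := by
    intro n a
    have h := hψs (a + 2 * n) {n}
    rwa [Finset.sum_singleton, add_sub_cancel_right] at h
  have hX0 : ∀ n a, 0 ≤ (1 + ε) * logb 2 (B / ψ n a) := by
    intro n a
    refine mul_nonneg (by linarith) (Real.logb_nonneg (by norm_num) ?_)
    rw [one_le_div (hψ0 n a)]
    exact hψB n a
  refine ⟨B ^ (-(1 + ε)) / 2, by have := rpow_pos_of_pos hB (-(1 + ε)); positivity, ?_⟩
  intro κ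
  refine ⟨fun n a => κ + ⌈(1 + ε) * logb 2 (B / ψ n a)⌉₊, fun n a => Nat.le_add_right _ _, ?_, ?_, ?_⟩
  · intro n a n' a'
    have e1 : logb 2 (B / ψ n' a') ≤ logb 2 (B / ψ n a) + (|(n : ℝ) - n'| + |(a : ℝ) - a'|) / 16 := by
      have h := hψ n' a' n a
      rw [abs_sub_comm (n' : ℝ), abs_sub_comm (a' : ℝ)] at h
      have h2 := Real.logb_le_logb_of_le (b := 2) (by norm_num) (hψ0 n a) h
      rw [Real.logb_mul (hψ0 n' a').ne' (Real.rpow_pos_of_pos (by norm_num) _).ne',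
        Real.logb_rpow (by norm_num) (by norm_num)] at h2
      rw [Real.logb_div hB.ne' (hψ0 _ _).ne', Real.logb_div hB.ne' (hψ0 _ _).ne']
      linarith
    have e2 : (⌈(1 + ε) * logb 2 (B / ψ n' a')⌉₊ : ℝ) < (1 + ε) * logb 2 (B / ψ n' a') + 1 :=
      Nat.ceil_lt_add_one (hX0 _ _)
    have e3 : (1 + ε) * logb 2 (B / ψ n a) ≤ (⌈(1 + ε) * logb 2 (B / ψ n a)⌉₊ : ℝ) := Nat.le_ceil _
    have e4 : 0 ≤ (|(n : ℝ) - n'| + |(a : ℝ) - a'|) / 16 := by positivity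
    have e5 : (1 + ε) * logb 2 (B / ψ n' a') ≤
        (1 + ε) * logb 2 (B / ψ n a) + 2 * ((|(n : ℝ) - n'| + |(a : ℝ) - a'|) / 16) := by
      have h3 := mul_le_mul_of_nonneg_left e1 (show 0 ≤ 1 + ε by linarith)
      have h4 : (1 + ε) * ((|(n : ℝ) - n'| + |(a : ℝ) - a'|) / 16) ≤
          2 * ((|(n : ℝ) - n'| + |(a : ℝ) - a'|) / 16) :=
        mul_le_mul_of_nonneg_right (by linarith) e4
      rw [mul_add] at h3
      linarith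
    push_cast
    linarith
  · intro τ k N hN
    have hk : ∀ n ∈ N, B * (2 : ℝ) ^ (-(((k : ℝ) - κ) / (1 + ε))) ≤ ψ n (τ - 2 * n) := by
      intro n hn
      have h2 := hN n hn
      have h3 : (κ : ℝ) + (⌈(1 + ε) * logb 2 (B / ψ n (τ - 2 * n))⌉₊ : ℝ) ≤ k := by exact_mod_cast h2
      have h4 : (1 + ε) * logb 2 (B / ψ n (τ - 2 * n)) ≤
          (⌈(1 + ε) * logb 2 (B / ψ n (τ - 2 * n))⌉₊ : ℝ) := Nat.le_ceil _
      have h5 : logb 2 (B / ψ n (τ - 2 * n)) ≤ ((k : ℝ) - κ) / (1 + ε) := by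
        rw [le_div_iff₀ (by linarith)]
        linarith
      have h6 := (Real.logb_le_iff_le_rpow (by norm_num) (div_pos hB (hψ0 _ _))).1 h5
      rw [div_le_iff₀ (hψ0 _ _)] at h6
      rw [Real.rpow_neg (by norm_num), ← div_eq_mul_inv,
        div_le_iff₀ (Real.rpow_pos_of_pos (by norm_num) _)]
      linarith
    have h7 : (N.card : ℝ) * (B * (2 : ℝ) ^ (-(((k : ℝ) - κ) / (1 + ε)))) ≤ B := by
      calc (N.card : ℝ) * (B * (2 : ℝ) ^ (-(((k : ℝ) - κ) / (1 + ε))))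
          = ∑ _n ∈ N, B * (2 : ℝ) ^ (-(((k : ℝ) - κ) / (1 + ε))) := by
            rw [Finset.sum_const, nsmul_eq_mul]
        _ ≤ ∑ n ∈ N, ψ n (τ - 2 * n) := Finset.sum_le_sum hk
        _ ≤ B := hψs τ N
    rw [Real.rpow_neg (by norm_num)] at h7
    have hp : (0 : ℝ) < (2 : ℝ) ^ (((k : ℝ) - κ) / (1 + ε)) := Real.rpow_pos_of_pos (by norm_num) _
    have h8 : (N.card : ℝ) * (B * ((2 : ℝ) ^ (((k : ℝ) - κ) / (1 + ε)))⁻¹) =
        B * ((N.card : ℝ) / (2 : ℝ) ^ (((k : ℝ) - κ) / (1 + ε))) := by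
      field_simp
    rw [h8] at h7
    have h9 : (N.card : ℝ) / (2 : ℝ) ^ (((k : ℝ) - κ) / (1 + ε)) ≤ 1 := by
      by_contra hcon
      push Not at hcon
      have := mul_lt_mul_of_pos_left hcon hB
      linarith
    rwa [div_le_one hp] at h9
  · intro n a
    have e2 : (⌈(1 + ε) * logb 2 (B / ψ n a)⌉₊ : ℝ) < (1 + ε) * logb 2 (B / ψ n a) + 1 :=
      Nat.ceil_lt_add_one (hX0 _ _)
    have hψp := hψ0 n a
    have e3 : (2 : ℝ) ^ (⌈(1 + ε) * logb 2 (B / ψ n a)⌉₊) ≤ (B / ψ n a) ^ (1 + ε) * 2 := by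
      rw [← Real.rpow_natCast]
      calc (2 : ℝ) ^ ((⌈(1 + ε) * logb 2 (B / ψ n a)⌉₊ : ℕ) : ℝ)
          ≤ (2 : ℝ) ^ ((1 + ε) * logb 2 (B / ψ n a) + 1) :=
            Real.rpow_le_rpow_of_exponent_le (by norm_num) e2.le
        _ = (B / ψ n a) ^ (1 + ε) * 2 := by
            rw [Real.rpow_add (by norm_num), Real.rpow_one, mul_comm (1 + ε),
              Real.rpow_mul (by norm_num), Real.rpow_logb (by norm_num) (by norm_num)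
              (div_pos hB hψp)]
    have e4 : F n a ^ (1 + ε) ≤ ψ n a ^ (1 + ε) :=
      Real.rpow_le_rpow (hF n a) (hFψ n a) (by linarith)
    have hBp : 0 < B ^ (1 + ε) := Real.rpow_pos_of_pos hB _
    have hψq : 0 < ψ n a ^ (1 + ε) := Real.rpow_pos_of_pos hψp _
    rw [Real.div_rpow hB.le hψp.le] at e3
    rw [le_div_iff₀ (by positivity), pow_add, Real.rpow_neg hB.le]
    calc (B ^ (1 + ε))⁻¹ / 2 / 2 ^ κ * F n a ^ (1 + ε) *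
          (2 ^ κ * 2 ^ ⌈(1 + ε) * logb 2 (B / ψ n a)⌉₊)
        ≤ (B ^ (1 + ε))⁻¹ / 2 / 2 ^ κ * ψ n a ^ (1 + ε) *
          (2 ^ κ * (B ^ (1 + ε) / ψ n a ^ (1 + ε) * 2)) := by
          gcongr
      _ = 1 := by
          field_simp

end Pool.Agent.H19.LX
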