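import Pool.Agent.H19.LW.Rec
import Pool.Agent.H19.LX.Cnt
import Pool.Agent.H19.LX.Num
import Pool.Agent.H19.LX.Wgt

/-!
# Module Main (about 220 lines): the theorem for sequences, with additional killed nodes

Proof. `0 < ε ≤ 1`, `0 < g < 2`. Choose `η ∈ (0,1/4)` with `(1/(1-η))^5 ≤ 2^(ε/(2(1+ε)))` and
`g ≤ 2(1-η)`, and `ζ = η/3`. Let `H = 234/(1 - 2^(-ε/(2(1+ε))))`, `C i = max (240/c i) (2^54)`. Choose
`κ i ≥ 1` with `2 ≤ c i 2^(κ i)` and `C i H 2^(-κ i/2) ≤ η/2^(i+1)`, and `P i` the `Par` with these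
data (so `η`, `P` do not depend on `E`). Given `E` put
`K M a ↔ (∃ i, (P i).Kill M a) ∨ (∃ x ∈ E M, a ≤ x + 1 ∧ x ≤ a + 1)`.
`growth` with `rec_count`, for every `m`: the index type is `ι = (ℕ × ℕ × ℕ) ⊕ Unit`;
`Ke (inl (i,n,k)) a = (P i).KillC (m+1) n k a`, `b = min m (m+1-5k)` (equal to `m+1-5k` for `k ≥ 1`),
`cc (inl (i,n,k)) = if ∃ q, (P i).Cls (m+1) n k q then 9 (C i (2^(m+1)/2^k/2^b)) else 0`
(for an empty class `KillC` is false; `k ≥ κ i ≥ 1` for a nonempty class by `Cls.κ_le`; a `q` of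
stage `m+1` which kills is in a class by `exists_cls`);
`Ke (inr ()) a = ∃ x ∈ E (m+1), a ≤ x + 1 ∧ x ≤ a + 1`, `b = 0`, `cc (inr ()) = 3 card (E (m+1))`.
`hc` is `cnt`; `hs`: the terms of `F` with first index `i` add up to at most
`C i H 2^(-κ i/2) ≤ η/2^(i+1)` by `sum_le`, all `i` together `≤ η`, and the term of `inr ()` is
`3 card (E (m+1))/(2(1-η))^m ≤ 3 ζ g^m/(2(1-η))^m ≤ η`.
`branch` gives `β`. If `a/2^M ≤ β ≤ (a+1)/2^M` with `a ∈ E M` then `M ≥ 1`, the node `a' ∈ G K M`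
which holds `β` has `|a - a'| ≤ 1`, so it is killed, a contradiction. The inequality for `q` is `surv`
with the node of level `stg q`.
-/

set_option autoImplicit false

namespace Pool.Agent.H19.LX

open Pool.Agent.H19.LW

open Real

private theorem Main_eta (t : ℝ) (ht : 1 < t) (g : ℝ) (g2 : g < 2) :
    ∃ η : ℝ, 0 < η ∧ η < 1 / 4 ∧ (1 / (1 - η)) ^ 5 ≤ t ∧ g ≤ 2 * (1 - η) := by
  have hcont : ContinuousAt (fun η : ℝ => (1 / (1 - η)) ^ 5) 0 := by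
    apply ContinuousAt.pow
    apply ContinuousAt.div continuousAt_const (continuousAt_const.sub continuousAt_id)
    simp
  have hev : ∀ᶠ η in nhds (0 : ℝ), (1 / (1 - η)) ^ 5 < t := by
    apply hcont.tendsto.eventually_lt_const
    simpa using ht
  have hev2 : ∀ᶠ η in nhdsWithin (0 : ℝ) (Set.Ioi 0), (1 / (1 - η)) ^ 5 < t :=
    hev.filter_mono nhdsWithin_le_nhds
  have hpos : (0 : ℝ) < min (1 / 4) ((2 - g) / 2) := lt_min (by norm_num) (by linarith)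
  have hev3 : ∀ᶠ η in nhdsWithin (0 : ℝ) (Set.Ioi 0),
      η ∈ Set.Ioo (0 : ℝ) (min (1 / 4) ((2 - g) / 2)) := Ioo_mem_nhdsGT hpos
  obtain ⟨η, k1, k2⟩ := (hev2.and hev3).exists
  refine ⟨η, k2.1, lt_of_lt_of_le k2.2 (min_le_left _ _), k1.le, ?_⟩
  have := lt_of_lt_of_le k2.2 (min_le_right _ _)
  linarith

private theorem Main_kappa (c B y : ℝ) (hc : 0 < c) (hB : 0 < B) (hy : 0 < y) :
    ∃ κ : ℕ, 1 ≤ κ ∧ 2 ≤ c * 2 ^ κ ∧ B * (2 : ℝ) ^ (-(κ : ℝ) / 2) ≤ y := by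
  have r0 : (0 : ℝ) < (2 : ℝ) ^ (-(1 / 2 : ℝ)) := rpow_pos_of_pos two_pos _
  have r1 : (2 : ℝ) ^ (-(1 / 2 : ℝ)) < 1 := rpow_lt_one_of_one_lt_of_neg one_lt_two (by norm_num)
  obtain ⟨n1, hn1⟩ := exists_pow_lt_of_lt_one (div_pos hy hB) r1
  obtain ⟨n2, hn2⟩ := pow_unbounded_of_one_lt (2 / c) (one_lt_two (α := ℝ))
  refine ⟨n1 + n2 + 1, by omega, ?_, ?_⟩
  · have k1 : (2 : ℝ) ^ n2 ≤ 2 ^ (n1 + n2 + 1) := pow_le_pow_right₀ one_le_two (by omega)
    have k2 : 2 < c * 2 ^ n2 := by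
      rw [div_lt_iff₀ hc] at hn2
      linarith
    have k3 := mul_le_mul_of_nonneg_left k1 hc.le
    linarith
  · have k1 : (2 : ℝ) ^ (-((n1 + n2 + 1 : ℕ) : ℝ) / 2) =
        ((2 : ℝ) ^ (-(1 / 2 : ℝ))) ^ (n1 + n2 + 1) := by
      rw [← rpow_natCast, ← rpow_mul two_pos.le]
      congr 1
      ring
    have k2 : ((2 : ℝ) ^ (-(1 / 2 : ℝ))) ^ (n1 + n2 + 1) ≤ ((2 : ℝ) ^ (-(1 / 2 : ℝ))) ^ n1 :=
      pow_le_pow_of_le_one r0.le r1.le (by omega)
    rw [k1]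
    have k3 := (lt_div_iff₀ hB).1 (lt_of_le_of_lt k2 hn1)
    linarith

private theorem Main_three (E A : Finset ℕ) (h : ∀ a ∈ A, ∃ x ∈ E, a ≤ x + 1 ∧ x ≤ a + 1) :
    (A.card : ℝ) ≤ 3 * E.card := by
  classical
  have hsub : A ⊆ E.biUnion (fun x => {x - 1, x, x + 1}) := by
    intro a ha
    obtain ⟨x, hx, h1, h2⟩ := h a ha
    refine Finset.mem_biUnion.2 ⟨x, hx, ?_⟩
    simp only [Finset.mem_insert, Finset.mem_singleton]
    omega
  have h1 := (Finset.card_le_card hsub).trans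
    (Finset.card_biUnion_le_card_mul E _ 3 fun x _ => Finset.card_le_three)
  have h2 : ((A.card : ℕ) : ℝ) ≤ ((E.card * 3 : ℕ) : ℝ) := by exact_mod_cast h1
  push_cast at h2
  linarith

private theorem Main_geom (η : ℝ) (h : 0 < η) (I : Finset ℕ) :
    ∑ i ∈ I, η / 2 ^ (i + 1) ≤ η := by
  have hs := hasSum_geometric_two' η
  have h1 : ∑ i ∈ I, η / 2 / 2 ^ i ≤ η := sum_le_hasSum I (fun i _ => by positivity) hs
  refine le_trans (le_of_eq (Finset.sum_congr rfl fun i _ => ?_)) h1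
  rw [pow_succ', div_div]

private theorem Main_notK {K : ℕ → ℕ → Prop} {M a : ℕ} (h : a ∈ G K (M + 1)) : ¬ K (M + 1) a := by
  classical
  rw [G, Finset.mem_filter] at h
  exact h.2.2

private theorem Main_step (P : ℕ → Par) (η : ℝ) (η0 : 0 < η) (η1 : η < 1 / 2) (E : ℕ → Finset ℕ)
    (hsum : ∀ i m (F : Finset (ℕ × ℕ)), (∀ x ∈ F, ∃ q, (P i).Cls (m + 1) x.1 x.2 q) →
      max (240 / (P i).c) (2 ^ 54) * ∑ x ∈ F, tm η m x.2 ≤ η / 2 ^ (i + 1))
    (hE : ∀ m, 3 * ((E (m + 1)).card : ℝ) / (2 * (1 - η)) ^ m ≤ η) (K : ℕ → ℕ → Prop)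
    (hK : ∀ M a, K M a ↔ (∃ i, (P i).Kill M a) ∨ (∃ x ∈ E M, a ≤ x + 1 ∧ x ≤ a + 1)) (m : ℕ)
    (hG : Gr K η m) : ((Bd K m).card : ℝ) ≤ 2 * η * (G K m).card := by
  classical
  have hq : 0 < 2 * (1 - η) := by linarith
  let Ke : (ℕ × ℕ × ℕ) ⊕ Unit → ℕ → Prop :=
    Sum.elim (fun y a => (P y.1).KillC (m + 1) y.2.1 y.2.2 a)
      (fun _ a => ∃ x ∈ E (m + 1), a ≤ x + 1 ∧ x ≤ a + 1)
  let b : (ℕ × ℕ × ℕ) ⊕ Unit → ℕ := Sum.elim (fun y => min m (m + 1 - 5 * y.2.2)) (fun _ => 0)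
  let f : ℕ × ℕ × ℕ → ℝ := fun y =>
    if ∃ q, (P y.1).Cls (m + 1) y.2.1 y.2.2 q then
      9 * (max (240 / (P y.1).c) (2 ^ 54) * (2 ^ (m + 1) / 2 ^ y.2.2 / 2 ^ (m + 1 - 5 * y.2.2)))
    else 0
  have hf0 : ∀ y, 0 ≤ f y := by
    intro y
    simp only [f]
    split_ifs
    · have : (0 : ℝ) ≤ max (240 / (P y.1).c) (2 ^ 54) := le_trans (by norm_num) (le_max_right _ _)
      positivity
    · exact le_refl _
  let cc : (ℕ × ℕ × ℕ) ⊕ Unit → ℝ := Sum.elim f (fun _ => 3 * ((E (m + 1)).card : ℝ))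
  have hbk : ∀ i n k, (∃ q, (P i).Cls (m + 1) n k q) → 1 ≤ k ∧ min m (m + 1 - 5 * k) = m + 1 - 5 * k := by
    rintro i n k ⟨q, hcl⟩
    have h1 : 1 ≤ k := (P i).κ1.trans hcl.κ_le
    exact ⟨h1, by omega⟩
  refine rec_count K η η0 η1 m hG Ke b cc ?_ ?_ ?_ ?_ ?_
  · intro a ha
    rcases (hK _ _).1 ha with ⟨i, q, hq1, hq2, r, hr⟩ | h
    · obtain ⟨n, k, hnk⟩ := (P i).exists_cls hq1
      rw [hq2] at hnk
      exact ⟨Sum.inl (i, n, k), q, hnk, r, hr⟩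
    · exact ⟨Sum.inr (), h⟩
  · rintro (y | y)
    · exact min_le_left _ _
    · exact Nat.zero_le _
  · rintro (y | y)
    · exact hf0 y
    · show (0 : ℝ) ≤ 3 * ((E (m + 1)).card : ℝ)
      positivity
  · rintro (⟨i, n, k⟩ | y) a₀ ha₀ A hA
    · by_cases hne : ∃ q, (P i).Cls (m + 1) n k q
      · obtain ⟨hk1, hb⟩ := hbk i n k hne
        have hcc : cc (Sum.inl (i, n, k)) =
            9 * (max (240 / (P i).c) (2 ^ 54) * (2 ^ (m + 1) / 2 ^ k / 2 ^ (m + 1 - 5 * k))) := by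
          show f (i, n, k) = _
          simp only [f]
          rw [if_pos hne]
        rw [hcc]
        refine cnt (P i) K (fun M a h => (hK M a).2 (Or.inl ⟨i, h⟩)) m n k (m + 1 - 5 * k) hk1 rfl a₀ A
          fun a ha => ?_
        obtain ⟨q1, q2, q3⟩ := hA a ha
        refine ⟨q1, q2, ?_⟩
        have : b (Sum.inl (i, n, k)) = m + 1 - 5 * k := hb
        rw [this] at q3
        exact q3
      · have hAe : A = ∅ := by
          rw [Finset.eq_empty_iff_forall_notMem]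
          intro a ha
          obtain ⟨_, ⟨q, hq', _⟩, _⟩ := hA a ha
          exact hne ⟨q, hq'⟩
        rw [hAe, Finset.card_empty, Nat.cast_zero]
        exact hf0 _
    · exact Main_three (E (m + 1)) A fun a ha => (hA a ha).2.1
  · intro F
    have hterm : ∀ y : ℕ × ℕ × ℕ, cc (Sum.inl y) / (2 * (1 - η)) ^ (m - b (Sum.inl y)) =
        if ∃ q, (P y.1).Cls (m + 1) y.2.1 y.2.2 q then
          max (240 / (P y.1).c) (2 ^ 54) * tm η m y.2.2 else 0 := by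
      rintro ⟨i, n, k⟩
      by_cases hne : ∃ q, (P i).Cls (m + 1) n k q
      · have hcc : cc (Sum.inl (i, n, k)) =
            9 * (max (240 / (P i).c) (2 ^ 54) * (2 ^ (m + 1) / 2 ^ k / 2 ^ (m + 1 - 5 * k))) := by
          show f (i, n, k) = _
          simp only [f]
          rw [if_pos hne]
        have hb : b (Sum.inl (i, n, k)) = m + 1 - 5 * k := (hbk i n k hne).2
        rw [hcc, hb, if_pos hne, tm]
        ring
      · have hcc : cc (Sum.inl (i, n, k)) = 0 := by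
          show f (i, n, k) = _
          simp only [f]
          rw [if_neg hne]
        rw [hcc, if_neg hne, zero_div]
    rw [← Finset.toLeft_disjSum_toRight (u := F), Finset.sum_disjSum]
    have hR : ∑ x ∈ F.toRight, cc (Sum.inr x) / (2 * (1 - η)) ^ (m - b (Sum.inr x)) ≤ η := by
      refine (Finset.sum_le_univ_sum_of_nonneg fun x => ?_).trans ?_
      · show (0 : ℝ) ≤ 3 * ((E (m + 1)).card : ℝ) / (2 * (1 - η)) ^ (m - 0)
        positivity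
      · rw [Fintype.sum_unique]
        show 3 * ((E (m + 1)).card : ℝ) / (2 * (1 - η)) ^ (m - 0) ≤ η
        rw [Nat.sub_zero]
        exact hE m
    have hL : ∑ x ∈ F.toLeft, cc (Sum.inl x) / (2 * (1 - η)) ^ (m - b (Sum.inl x)) ≤ η := by
      rw [← Finset.sum_fiberwise_of_maps_to (g := fun y : ℕ × ℕ × ℕ => y.1)
        (t := F.toLeft.image fun y => y.1) (fun y hy => Finset.mem_image_of_mem _ hy)]
      refine le_trans (Finset.sum_le_sum fun i _ => ?_) (Main_geom η η0 _)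
      have e1 : ∑ y ∈ F.toLeft with y.1 = i, cc (Sum.inl y) / (2 * (1 - η)) ^ (m - b (Sum.inl y)) =
          max (240 / (P i).c) (2 ^ 54) * ∑ x ∈ ((F.toLeft.filter fun y => y.1 = i).filter
            fun y => ∃ q, (P y.1).Cls (m + 1) y.2.1 y.2.2 q).image (fun y => y.2), tm η m x.2 := by
        rw [Finset.sum_image, Finset.mul_sum, Finset.sum_filter (fun y : ℕ × ℕ × ℕ =>
          ∃ q, (P y.1).Cls (m + 1) y.2.1 y.2.2 q)]
        · refine Finset.sum_congr rfl fun y hy => ?_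
          have hyi : y.1 = i := (Finset.mem_filter.1 hy).2
          rw [hterm y, hyi]
        · rintro ⟨i1, y1⟩ hy1 ⟨i2, y2⟩ hy2 h12
          have k1 : i1 = i := (Finset.mem_filter.1 (Finset.mem_filter.1 (Finset.mem_coe.1 hy1)).1).2
          have k2 : i2 = i := (Finset.mem_filter.1 (Finset.mem_filter.1 (Finset.mem_coe.1 hy2)).1).2
          have k3 : y1 = y2 := h12
          rw [k1, k2, k3]
      rw [e1]
      refine hsum i m _ fun x hx => ?_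
      obtain ⟨y, hy, rfl⟩ := Finset.mem_image.1 hx
      obtain ⟨hy1, hy2⟩ := Finset.mem_filter.1 hy
      have hyi : y.1 = i := (Finset.mem_filter.1 hy1).2
      rw [hyi] at hy2
      exact hy2
    linarith

theorem main_seq (ε : ℝ) (h0 : 0 < ε) (h1 : ε ≤ 1) (α : ℕ → ℝ) (F : ℕ → ℤ → ℤ → ℝ) (c : ℕ → ℝ)
    (hc : ∀ i, 0 < c i) (hbad : ∀ i, ∀ q : ℕ, 1 ≤ q → c i ≤ q * nd (q * α i))
    (hF : ∀ i n a, 0 ≤ F i n a)
    (hs : ∀ i (τ : ℤ) (N : Finset ℤ), ∑ n ∈ N, F i n (τ - 2 * n) ≤ 1)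
    (g : ℝ) (g0 : 0 < g) (g2 : g < 2) :
    ∃ ζ > 0, ∀ E : ℕ → Finset ℕ, E 0 = ∅ → (∀ M, 1 ≤ M → ((E M).card : ℝ) ≤ ζ * g ^ (M - 1)) →
      ∃ β : ℝ, (∀ i, ∃ C > 0, ∀ q : ℕ, 1 ≤ q →
        C * F i (Nat.log 2 q) (Int.log 2 (nd (q * α i))) ^ (1 + ε) ≤
          nd (q * β) * (q * nd (q * α i))) ∧
        0 ≤ β ∧ β ≤ 1 ∧ ∀ M, ∀ a ∈ E M, ¬ ((a : ℝ) / 2 ^ M ≤ β ∧ β ≤ (a + 1) / 2 ^ M) := by
  classical
  have ht1 : (1 : ℝ) < (2 : ℝ) ^ (ε / (2 * (1 + ε))) := one_lt_rpow one_lt_two (by positivity)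
  obtain ⟨η, η0, η1, hη, hgη⟩ := Main_eta _ ht1 g g2
  have hη2 : η < 1 / 2 := by linarith
  have hH0 : 0 < 234 / (1 - (2 : ℝ) ^ (-(ε / (2 * (1 + ε))))) := by
    apply div_pos (by norm_num)
    have h3 : (2 : ℝ) ^ (-(ε / (2 * (1 + ε)))) < 1 :=
      rpow_lt_one_of_one_lt_of_neg one_lt_two (neg_lt_zero.2 (by positivity))
    linarith
  have hC0 : ∀ i, 0 < max (240 / c i) (2 ^ 54) := fun i =>
    lt_of_lt_of_le (by norm_num) (le_max_right _ _)
  have hκ : ∀ i, ∃ κ : ℕ, 1 ≤ κ ∧ 2 ≤ c i * 2 ^ κ ∧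
      (max (240 / c i) (2 ^ 54) * (234 / (1 - (2 : ℝ) ^ (-(ε / (2 * (1 + ε))))))) *
        (2 : ℝ) ^ (-(κ : ℝ) / 2) ≤ η / 2 ^ (i + 1) := fun i =>
    Main_kappa _ _ _ (hc i) (mul_pos (hC0 i) hH0) (by positivity)
  choose κ κ1 κc κH using hκ
  have hW := fun i => exists_l ε h0 h1 (F i) (hF i) (hs i)
  choose C hC hl using hW
  choose l hl1 hl2 hl3 hl4 using fun i => hl i (κ i)
  let P : ℕ → Par := fun i =>
    { α := α i, ε := ε, c := c i, κ := κ i, l := l i, c0 := hc i, bad := hbad i, ε0 := h0, ε1 := h1,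
      κc := κc i, κ1 := κ1 i, κl := hl1 i, slow := hl2 i, line := hl3 i }
  refine ⟨η / 3, by positivity, ?_⟩
  intro E hE0 hE
  let K : ℕ → ℕ → Prop := fun M a =>
    (∃ i, (P i).Kill M a) ∨ (∃ x ∈ E M, a ≤ x + 1 ∧ x ≤ a + 1)
  have hK : ∀ i M a, (P i).Kill M a → K M a := fun i M a h => Or.inl ⟨i, h⟩
  have hgrow := growth K η η0 hη2 (fun m hG => Main_step P η η0 hη2 E ?_ ?_ K
    (fun M a => Iff.rfl) m hG)
  · obtain ⟨β, β0, β1, hβ⟩ := branch K fun m => (hgrow m).2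
    refine ⟨β, fun i => ⟨C i / 2 ^ κ i / 4, by have := hC i; positivity, fun q hq => ?_⟩, β0, β1,
      fun M a ha hab => ?_⟩
    · obtain ⟨a, ha, ha1, ha2⟩ := hβ ((P i).stg q)
      have h5 := surv (P i) K (hK i) hq ha β ha1 ha2
      refine le_trans ?_ h5
      have h6 := hl4 i (Nat.log 2 q) (Int.log 2 (nd (q * α i)))
      have h7 : (P i).del q = 1 / 2 ^ l i (Nat.log 2 q) (Int.log 2 (nd (q * α i))) := rfl
      rw [h7]
      linarith
    · obtain ⟨a', ha', ha1, ha2⟩ := hβ M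
      cases M with
      | zero =>
        rw [hE0] at ha
        exact absurd ha (Finset.notMem_empty a)
      | succ M =>
        have hp : (0 : ℝ) < 2 ^ (M + 1) := by positivity
        have k1 : (a : ℝ) ≤ a' + 1 := (div_le_div_iff_of_pos_right hp).1 (hab.1.trans ha2)
        have k2 : (a' : ℝ) ≤ a + 1 := (div_le_div_iff_of_pos_right hp).1 (ha1.trans hab.2)
        have k3 : a ≤ a' + 1 := by exact_mod_cast k1
        have k4 : a' ≤ a + 1 := by exact_mod_cast k2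
        exact Main_notK ha' (Or.inr ⟨a, ha, k4, k3⟩)
  · intro i m F hF
    have h3 := sum_le (P i) η η0 hη2 hη m F hF
    have h4 := mul_le_mul_of_nonneg_left h3 (hC0 i).le
    refine h4.trans (le_trans (le_of_eq ?_) (κH i))
    rw [mul_assoc]
  · intro m
    have hp : 0 < (2 * (1 - η)) ^ m := pow_pos (by linarith) _
    rw [div_le_iff₀ hp]
    have h3 := hE (m + 1) (by omega)
    rw [Nat.add_sub_cancel] at h3
    have h4 : g ^ m ≤ (2 * (1 - η)) ^ m := pow_le_pow_left₀ g0.le hgη m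
    have h5 := mul_le_mul_of_nonneg_left h4 η0.le
    linarith

end Pool.Agent.H19.LX
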