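import Mathlib

/-!
# Module Smo (about 160 lines): smoothing of a weight

THEOREM. There is `B > 0` such that for every `F ≥ 0` on `ℤ × ℤ` with `∑_(n ∈ N) F n (τ - 2 n) ≤ 1`
for all `τ` and all finite `N` there is `ψ > 0` with `F ≤ ψ`, line sums at most `B`, and
`ψ n' a' ≤ ψ n a 2^((|n-n'| + |a-a'|)/16)`.

PROOF. Let `r = 2^(-1/16)`, `|u| = |n| + |a|` for `u = (n,a)`. Put
`ψ u = r^|u| + ∑_(u') F u' r^|u-u'|` (or: `ψ u = ⨆ u', (F u' + r^|u'|) r^|u-u'|`). The terms are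
summable, for example since the partial sums are bounded: group `u'` by the lines
`τ' = a' + 2 n'`: for `u = (n, τ - 2n)`, `d = n - n'`, `s = τ - τ'` one has
`|u - u'| = |d| + |s - 2d| ≥ |s|/2` (`|s| ≤ |s-2d| + 2|d| ≤ 2 (|d| + |s-2d|)`), so
`∑_(u') F u' r^|u-u'| ≤ ∑_(τ') r^(|τ-τ'|/2) (line sum of F at τ') ≤ ∑_s r^(|s|/2)`.
Line sums: `|d| + |s-2d| ≥ |d|/2 + |s|/4`, so
`∑_n ∑_(u') F u' r^|(n,τ-2n) - u'| ≤ ∑_(u') F u' r^(|τ-τ'|/4) ∑_n r^(|n-n'|/2)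
≤ (∑_d r^(|d|/2)) (∑_s r^(|s|/4))`, and `∑_n r^(|n|+|τ-2n|) ≤ ∑_n r^|n|`. `F u ≤ ψ u`: the term
`u' = u`. Slow variation: `|u - u'| ≤ |u - u''| + |u'' - u'|` termwise. (A convenient way is to work
in `ENNReal`: `ENNReal.tsum_comm`, `Equiv.tsum_eq`, no summability is needed before the end. Another
one: the supremum instead of the sum; for finite `N` choose for every `n ∈ N` a `u'` with
`ψ ≤ 2 (F u' + r^|u'|) r^|u-u'|`, then only finite sums occur.)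
-/

set_option autoImplicit false

namespace Pool.Agent.H19.LX

private lemma Smo_K {c : ℝ} (hc : 0 < c) : ∃ K : ℝ, 0 ≤ K ∧
    ∀ S : Finset ℤ, ∑ d ∈ S, (2 : ℝ) ^ (-(|(d : ℝ)| * c)) ≤ K := by
  have hρ0 : 0 ≤ (2 : ℝ) ^ (-c) := by positivity
  have hρ1 : (2 : ℝ) ^ (-c) < 1 := Real.rpow_lt_one_of_one_lt_of_neg (by norm_num) (by linarith)
  have he : ∀ d : ℤ, (2 : ℝ) ^ (-(|(d : ℝ)| * c)) = ((2 : ℝ) ^ (-c)) ^ d.natAbs := by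
    intro d
    have h1 : -(|(d : ℝ)| * c) = (-c) * (d.natAbs : ℝ) := by
      rw [Nat.cast_natAbs, Int.cast_abs]
      ring
    rw [h1, Real.rpow_mul (by norm_num), Real.rpow_natCast]
  have hg := summable_geometric_of_lt_one hρ0 hρ1
  have hs : Summable fun d : ℤ => (2 : ℝ) ^ (-(|(d : ℝ)| * c)) := by
    refine Summable.of_nat_of_neg ?_ ?_
    · refine hg.congr fun n => ?_
      rw [he, Int.natAbs_natCast]
    · refine hg.congr fun n => ?_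
      rw [he, Int.natAbs_neg, Int.natAbs_natCast]
  refine ⟨∑' d : ℤ, (2 : ℝ) ^ (-(|(d : ℝ)| * c)), tsum_nonneg fun d => by positivity, fun S => ?_⟩
  exact hs.sum_le_tsum S fun d _ => by positivity

private noncomputable def Smo_w (x : ℝ) : ℝ := (2 : ℝ) ^ (-x / 16)

private lemma Smo_w_pos (x : ℝ) : 0 < Smo_w x := by
  unfold Smo_w
  positivity

private lemma Smo_w_anti {x y : ℝ} (h : x ≤ y) : Smo_w y ≤ Smo_w x := by
  unfold Smo_w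
  exact Real.rpow_le_rpow_of_exponent_le (by norm_num) (by linarith)

private lemma Smo_w_le {x : ℝ} (h : 0 ≤ x) : Smo_w x ≤ 1 := by
  have h1 := Smo_w_anti h
  have h2 : Smo_w 0 = 1 := by simp [Smo_w]
  linarith

private noncomputable def Smo_G (F : ℤ → ℤ → ℝ) (n a : ℤ) : ℝ :=
  F n a + Smo_w (|(n : ℝ)| + |(a : ℝ)|)

private noncomputable def Smo_T (F : ℤ → ℤ → ℝ) (n a : ℤ) (p : ℤ × ℤ) : ℝ :=
  Smo_G F p.1 p.2 * Smo_w (|(n : ℝ) - p.1| + |(a : ℝ) - p.2|)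

private noncomputable def Smo_psi (F : ℤ → ℤ → ℝ) (n a : ℤ) : ℝ := ⨆ p : ℤ × ℤ, Smo_T F n a p

private lemma Smo_F_le {F : ℤ → ℤ → ℝ}
    (hl : ∀ (τ : ℤ) (N : Finset ℤ), ∑ n ∈ N, F n (τ - 2 * n) ≤ 1) (n a : ℤ) : F n a ≤ 1 := by
  have h := hl (a + 2 * n) {n}
  rw [Finset.sum_singleton] at h
  have e : a + 2 * n - 2 * n = a := by ring
  rwa [e] at h

private lemma Smo_G_pos {F : ℤ → ℤ → ℝ} (h0 : ∀ n a, 0 ≤ F n a) (n a : ℤ) : 0 < Smo_G F n a :=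
  add_pos_of_nonneg_of_pos (h0 n a) (Smo_w_pos _)

private lemma Smo_T_le {F : ℤ → ℤ → ℝ} (h0 : ∀ n a, 0 ≤ F n a)
    (hl : ∀ (τ : ℤ) (N : Finset ℤ), ∑ n ∈ N, F n (τ - 2 * n) ≤ 1) (n a : ℤ) (p : ℤ × ℤ) :
    Smo_T F n a p ≤ 2 := by
  have h1 : Smo_G F p.1 p.2 ≤ 2 := by
    have h2 := Smo_F_le hl p.1 p.2
    have h3 := Smo_w_le (x := |(p.1 : ℝ)| + |(p.2 : ℝ)|) (by positivity)
    unfold Smo_G
    linarith
  have h4 := Smo_w_le (x := |(n : ℝ) - p.1| + |(a : ℝ) - p.2|) (by positivity)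
  have h5 := Smo_w_pos (|(n : ℝ) - p.1| + |(a : ℝ) - p.2|)
  have h6 := Smo_G_pos h0 p.1 p.2
  unfold Smo_T
  nlinarith

private lemma Smo_bdd {F : ℤ → ℤ → ℝ} (h0 : ∀ n a, 0 ≤ F n a)
    (hl : ∀ (τ : ℤ) (N : Finset ℤ), ∑ n ∈ N, F n (τ - 2 * n) ≤ 1) (n a : ℤ) :
    BddAbove (Set.range (Smo_T F n a)) := by
  refine ⟨2, ?_⟩
  rintro _ ⟨p, rfl⟩
  exact Smo_T_le h0 hl n a p

private lemma Smo_le {F : ℤ → ℤ → ℝ} (h0 : ∀ n a, 0 ≤ F n a)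
    (hl : ∀ (τ : ℤ) (N : Finset ℤ), ∑ n ∈ N, F n (τ - 2 * n) ≤ 1) (n a : ℤ) :
    Smo_G F n a ≤ Smo_psi F n a := by
  have h1 := le_ciSup (Smo_bdd h0 hl n a) (n, a)
  have h2 : Smo_T F n a (n, a) = Smo_G F n a := by
    simp [Smo_T, Smo_w]
  rw [h2] at h1
  exact h1

private lemma Smo_slow {F : ℤ → ℤ → ℝ} (h0 : ∀ n a, 0 ≤ F n a)
    (hl : ∀ (τ : ℤ) (N : Finset ℤ), ∑ n ∈ N, F n (τ - 2 * n) ≤ 1) (n a n' a' : ℤ) :
    Smo_psi F n' a' ≤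
      Smo_psi F n a * (2 : ℝ) ^ ((|(n : ℝ) - n'| + |(a : ℝ) - a'|) / 16) := by
  refine ciSup_le fun p => ?_
  have h1 := le_ciSup (Smo_bdd h0 hl n a) p
  have h2 : Smo_T F n' a' p ≤
      Smo_T F n a p * (2 : ℝ) ^ ((|(n : ℝ) - n'| + |(a : ℝ) - a'|) / 16) := by
    unfold Smo_T
    rw [mul_assoc]
    refine mul_le_mul_of_nonneg_left ?_ (Smo_G_pos h0 _ _).le
    unfold Smo_w
    rw [← Real.rpow_add (by norm_num)]
    refine Real.rpow_le_rpow_of_exponent_le (by norm_num) ?_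
    have t1 := abs_sub_le (n : ℝ) n' p.1
    have t2 := abs_sub_le (a : ℝ) a' p.2
    linarith
  refine h2.trans (mul_le_mul_of_nonneg_right h1 (by positivity))

private lemma Smo_Gline {F : ℤ → ℤ → ℝ} 
    (hl : ∀ (τ : ℤ) (N : Finset ℤ), ∑ n ∈ N, F n (τ - 2 * n) ≤ 1) {K : ℝ}
    (hK : ∀ S : Finset ℤ, ∑ d ∈ S, (2 : ℝ) ^ (-(|(d : ℝ)| * (1 / 16))) ≤ K)
    (τ : ℤ) (N : Finset ℤ) : ∑ n ∈ N, Smo_G F n (τ - 2 * n) ≤ 1 + K := by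
  unfold Smo_G
  rw [Finset.sum_add_distrib]
  refine add_le_add (hl τ N) ((Finset.sum_le_sum fun n _ => ?_).trans (hK N))
  unfold Smo_w
  refine Real.rpow_le_rpow_of_exponent_le (by norm_num) ?_
  have := abs_nonneg (((τ - 2 * n : ℤ)) : ℝ)
  linarith

private lemma Smo_line {F : ℤ → ℤ → ℝ} (h0 : ∀ n a, 0 ≤ F n a)
    (hl : ∀ (τ : ℤ) (N : Finset ℤ), ∑ n ∈ N, F n (τ - 2 * n) ≤ 1) {K K2 K4 : ℝ}
    (hK0 : 0 ≤ K) (hK20 : 0 ≤ K2)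
    (hK : ∀ S : Finset ℤ, ∑ d ∈ S, (2 : ℝ) ^ (-(|(d : ℝ)| * (1 / 16))) ≤ K)
    (hK2 : ∀ S : Finset ℤ, ∑ d ∈ S, (2 : ℝ) ^ (-(|(d : ℝ)| * (1 / 32))) ≤ K2)
    (hK4 : ∀ S : Finset ℤ, ∑ d ∈ S, (2 : ℝ) ^ (-(|(d : ℝ)| * (1 / 64))) ≤ K4)
    (τ : ℤ) (N : Finset ℤ) : ∑ n ∈ N, Smo_psi F n (τ - 2 * n) ≤ 2 * (K2 * K4 * (1 + K)) := by
  have hex : ∀ n : ℤ, ∃ p : ℤ × ℤ, Smo_psi F n (τ - 2 * n) ≤ 2 * Smo_T F n (τ - 2 * n) p := by
    intro n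
    have hpos : 0 < Smo_psi F n (τ - 2 * n) :=
      (Smo_G_pos h0 n (τ - 2 * n)).trans_le (Smo_le h0 hl n (τ - 2 * n))
    have h1 : Smo_psi F n (τ - 2 * n) / 2 < ⨆ p : ℤ × ℤ, Smo_T F n (τ - 2 * n) p := by
      change Smo_psi F n (τ - 2 * n) / 2 < Smo_psi F n (τ - 2 * n)
      linarith
    obtain ⟨p, hp⟩ := exists_lt_of_lt_ciSup h1
    exact ⟨p, by linarith⟩
  choose p hp using hex
  obtain ⟨d, hd⟩ : ∃ d : ℤ → ℤ, d = fun n => n - (p n).1 := ⟨_, rfl⟩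
  obtain ⟨e, he⟩ : ∃ e : ℤ → ℤ, e = fun n => τ - ((p n).2 + 2 * (p n).1) := ⟨_, rfl⟩
  obtain ⟨g, hg⟩ : ∃ g : ℤ → ℝ, g = fun n => Smo_G F (p n).1 (p n).2 *
      ((2 : ℝ) ^ (-(|(d n : ℝ)| * (1 / 32))) * (2 : ℝ) ^ (-(|(e n : ℝ)| * (1 / 64)))) := ⟨_, rfl⟩
  have h1 : ∑ n ∈ N, Smo_psi F n (τ - 2 * n) ≤ 2 * ∑ n ∈ N, g n := by
    rw [Finset.mul_sum]
    refine Finset.sum_le_sum fun n _ => (hp n).trans ?_
    refine mul_le_mul_of_nonneg_left ?_ (by norm_num)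
    rw [hg]
    unfold Smo_T
    refine mul_le_mul_of_nonneg_left ?_ (Smo_G_pos h0 _ _).le
    unfold Smo_w
    rw [← Real.rpow_add (by norm_num)]
    refine Real.rpow_le_rpow_of_exponent_le (by norm_num) ?_
    have t1 : ((d n : ℤ) : ℝ) = (n : ℝ) - (p n).1 := by rw [hd]; push_cast; ring
    have t2 : ((e n : ℤ) : ℝ) = ((((τ - 2 * n : ℤ)) : ℝ) - (p n).2) + 2 * ((n : ℝ) - (p n).1) := by
      rw [he]
      push_cast
      ring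
    have t3 : |((e n : ℤ) : ℝ)| ≤
        |(((τ - 2 * n : ℤ)) : ℝ) - (p n).2| + 2 * |(n : ℝ) - (p n).1| := by
      rw [t2]
      refine (abs_add_le _ _).trans ?_
      rw [abs_mul, abs_two]
    have t4 : |((d n : ℤ) : ℝ)| = |(n : ℝ) - (p n).1| := by rw [t1]
    have t5 := abs_nonneg ((((τ - 2 * n : ℤ)) : ℝ) - (p n).2)
    rw [t4]
    linarith
  have h2 : ∑ n ∈ N, g n = ∑ x ∈ N.image d ×ˢ N.image e, ∑ n ∈ N with (d n, e n) = x, g n := by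
    refine (Finset.sum_fiberwise_of_maps_to ?_ _).symm
    intro n hn
    exact Finset.mem_product.2 ⟨Finset.mem_image_of_mem d hn, Finset.mem_image_of_mem e hn⟩
  have h3 : ∀ x : ℤ × ℤ, ∑ n ∈ N with (d n, e n) = x, g n ≤
      (2 : ℝ) ^ (-(|(x.1 : ℝ)| * (1 / 32))) * (2 : ℝ) ^ (-(|(x.2 : ℝ)| * (1 / 64))) * (1 + K) := by
    intro x
    have h4 : ∑ n ∈ N with (d n, e n) = x, g n =
        (2 : ℝ) ^ (-(|(x.1 : ℝ)| * (1 / 32))) * (2 : ℝ) ^ (-(|(x.2 : ℝ)| * (1 / 64))) *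
          ∑ n ∈ N with (d n, e n) = x, Smo_G F (n - x.1) ((τ - x.2) - 2 * (n - x.1)) := by
      rw [Finset.mul_sum]
      refine Finset.sum_congr rfl fun n hn => ?_
      have h5 := (Finset.mem_filter.1 hn).2
      have h6 : d n = x.1 := congrArg Prod.fst h5
      have h7 : e n = x.2 := congrArg Prod.snd h5
      have h8 : (p n).1 = n - x.1 := by rw [← h6, hd]; ring
      have h9 : (p n).2 = (τ - x.2) - 2 * (n - x.1) := by rw [← h8, ← h7, he]; ring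
      rw [hg]
      simp only []
      rw [h6, h7, h9, h8]
      ring
    rw [h4]
    refine mul_le_mul_of_nonneg_left ?_ (by positivity)
    have h5 : ∑ n ∈ N with (d n, e n) = x, Smo_G F (n - x.1) ((τ - x.2) - 2 * (n - x.1)) =
        ∑ m ∈ ({n ∈ N | (d n, e n) = x} : Finset ℤ).image (fun n => n - x.1),
          Smo_G F m ((τ - x.2) - 2 * m) := by
      rw [Finset.sum_image]
      intro i _ j _ hij
      have : i - x.1 = j - x.1 := hij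
      linarith
    rw [h5]
    exact Smo_Gline hl hK _ _
  have h6 : ∑ x ∈ N.image d ×ˢ N.image e, ∑ n ∈ N with (d n, e n) = x, g n ≤
      K2 * K4 * (1 + K) := by
    refine (Finset.sum_le_sum fun x _ => h3 x).trans ?_
    rw [← Finset.sum_mul]
    refine mul_le_mul_of_nonneg_right ?_ (by linarith)
    rw [Finset.sum_product]
    have h7 : ∑ x ∈ N.image d, ∑ y ∈ N.image e, (2 : ℝ) ^ (-(|(x : ℝ)| * (1 / 32))) *
        (2 : ℝ) ^ (-(|(y : ℝ)| * (1 / 64))) =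
        (∑ x ∈ N.image d, (2 : ℝ) ^ (-(|(x : ℝ)| * (1 / 32)))) *
          ∑ y ∈ N.image e, (2 : ℝ) ^ (-(|(y : ℝ)| * (1 / 64))) := by
      rw [Finset.sum_mul_sum]
    rw [h7]
    exact mul_le_mul (hK2 _) (hK4 _) (Finset.sum_nonneg fun y _ => by positivity) hK20
  rw [h2] at h1
  linarith

theorem smooth : ∃ B : ℝ, 0 < B ∧ ∀ F : ℤ → ℤ → ℝ, (∀ n a, 0 ≤ F n a) →
    (∀ (τ : ℤ) (N : Finset ℤ), ∑ n ∈ N, F n (τ - 2 * n) ≤ 1) →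
    ∃ ψ : ℤ → ℤ → ℝ, (∀ n a, 0 < ψ n a) ∧ (∀ n a, F n a ≤ ψ n a) ∧
      (∀ (τ : ℤ) (N : Finset ℤ), ∑ n ∈ N, ψ n (τ - 2 * n) ≤ B) ∧
      ∀ n a n' a' : ℤ,
        ψ n' a' ≤ ψ n a * (2 : ℝ) ^ ((|(n : ℝ) - n'| + |(a : ℝ) - a'|) / 16) := by
  obtain ⟨K, hK0, hK⟩ := Smo_K (c := 1 / 16) (by norm_num)
  obtain ⟨K2, hK20, hK2⟩ := Smo_K (c := 1 / 32) (by norm_num)
  obtain ⟨K4, hK40, hK4⟩ := Smo_K (c := 1 / 64) (by norm_num)
  refine ⟨2 * (K2 * K4 * (1 + K)) + 1, by positivity, fun F h0 hl => ?_⟩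
  refine ⟨Smo_psi F, fun n a => (Smo_G_pos h0 n a).trans_le (Smo_le h0 hl n a), fun n a => ?_,
    fun τ N => ?_, fun n a n' a' => Smo_slow h0 hl n a n' a'⟩
  · refine le_trans ?_ (Smo_le h0 hl n a)
    exact le_add_of_nonneg_right (Smo_w_pos _).le
  · have := Smo_line h0 hl hK0 hK20 hK hK2 hK4 τ N
    linarith

end Pool.Agent.H19.LX
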